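import Pool.Agent.Helper84.P11.StD1

/-!
# Project W7 (MP_1d384c_nt), module Exp: expansion of a list of operators modulo lowering by 13
-/

set_option autoImplicit false
set_option maxRecDepth 100000

namespace Pool.Agent.Helper84.P11

open Pool.Agent.Helper84.P11

/-! ### residues modulo 121 -/

set_option maxRecDepth 100000 in
private theorem zm_unit : ∀ a : ZMod 121, a * 11 ≠ 0 → a ^ 110 = 1 := by
  decide +kernel

private theorem zm_ne (a : ℤ) (h : a % 11 ≠ 0) : (a : ZMod 121) * 11 ≠ 0 := by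
  intro h0
  have h1 : ((a * 11 : ℤ) : ZMod 121) = 0 := by push_cast; exact h0
  have h2 := (ZMod.intCast_zmod_eq_zero_iff_dvd (a * 11) 121).1 h1
  push_cast at h2
  omega

private theorem zm20 (a : ℤ) (h : a % 11 ≠ 0) : (a : ZMod 121) ^ 110 = 1 := zm_unit _ (zm_ne a h)

private theorem dvd_of_zm (x : ℤ) (h : (x : ZMod 121) = 0) : (121 : ℤ) ∣ x := by
  have := (ZMod.intCast_zmod_eq_zero_iff_dvd x 121).1 h
  exact_mod_cast this

private theorem cast_mod (x : ℤ) : ((x % 121 : ℤ) : ZMod 121) = (x : ZMod 121) := by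
  rw [ZMod.intCast_eq_intCast_iff']
  push_cast
  exact Int.emod_emod_of_dvd x (dvd_refl 121)

private theorem cast_toNat (x : ℤ) : ((((x % 121).toNat : ℕ) : ℤ) : ZMod 121) = (x : ZMod 121) := by
  rw [Int.toNat_of_nonneg (Int.emod_nonneg _ (by norm_num)), cast_mod]

/-- the index of the root of unity, as a function of the residue -/
private def wOf (l : ℤ) : Fin 10 :=
  if l % 11 = 1 then 0 else if l % 11 = 2 then 1 else if l % 11 = 4 then 2
  else if l % 11 = 8 then 3 else if l % 11 = 5 then 4 else if l % 11 = 10 then 5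
  else if l % 11 = 9 then 6 else if l % 11 = 7 then 7 else if l % 11 = 3 then 8 else 9

private theorem wE_eq (t : Tm) : wE t = wOf (lE t) := rfl

private theorem oio : ∀ w : Fin 10, ((om10 w : ℤ) : ZMod 121) * ((oi10 w : ℤ) : ZMod 121) = 1 := by
  decide

set_option maxRecDepth 100000 in
private theorem six_pow0 : ∀ l : Fin 121, ((l : ℕ) : ℤ) % 11 ≠ 0 →
    (((12 : ℤ) ^ (((((l : ℕ) : ℤ) * oi10 (wOf ((l : ℕ) : ℤ))) % 121) / 11).toNat : ℤ) : ZMod 121) =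
      ((((l : ℕ) : ℤ)) : ZMod 121) * ((oi10 (wOf ((l : ℕ) : ℤ)) : ℤ) : ZMod 121) := by
  decide +kernel

private theorem six_pow (l : ℤ) (h0 : 0 ≤ l) (h1 : l < 121) (h5 : l % 11 ≠ 0) :
    (((12 : ℤ) ^ (((l * oi10 (wOf l)) % 121) / 11).toNat : ℤ) : ZMod 121) =
      (l : ZMod 121) * ((oi10 (wOf l) : ℤ) : ZMod 121) := by
  obtain ⟨n, rfl⟩ := Int.eq_ofNat_of_zero_le h0
  have hn : n < 121 := by omega
  exact six_pow0 ⟨n, hn⟩ h5

private theorem m_lt (x : ℤ) : ((x % 121) / 11).toNat < 11 := by omega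

private theorem aI_cast (t : Tm) : ((aI t : ℤ) : ZMod 121) = (t.2.1 : ZMod 121) ^ 109 := by
  unfold aI
  rw [cast_mod]
  push_cast
  ring

private theorem lE_cast (t : Tm) : ((lE t : ℤ) : ZMod 121) =
    ((t.2.1 : ZMod 121) * t.2.2.2.2 - 11 * t.2.2.1 * t.2.2.2.1) * ((t.2.1 : ZMod 121) ^ 109) ^ 2 := by
  unfold lE
  rw [cast_mod]
  push_cast
  rw [aI_cast]

private theorem lE_bd (t : Tm) : 0 ≤ lE t ∧ lE t < 121 := by
  unfold lE
  exact ⟨Int.emod_nonneg _ (by norm_num), Int.emod_lt_of_pos _ (by norm_num)⟩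

private theorem lE_ne (t : Tm) (h : Gd t) : lE t % 11 ≠ 0 := by
  intro h0
  have h1 : ((lE t * 11 : ℤ) : ZMod 121) = 0 := by
    rw [ZMod.intCast_zmod_eq_zero_iff_dvd]
    push_cast
    omega
  push_cast at h1
  rw [lE_cast] at h1
  have ha := zm20 _ h.1
  have hd := zm20 _ h.2
  set A : ZMod 121 := (t.2.1 : ZMod 121)
  set D : ZMod 121 := (t.2.2.2.2 : ZMod 121)
  set B : ZMod 121 := (t.2.2.1 : ZMod 121)
  set C : ZMod 121 := (t.2.2.2.1 : ZMod 121)
  have h25 : (121 : ZMod 121) = 0 := by decide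
  have h2 : (A * D - 11 * B * C) * (A ^ 109) ^ 2 * 11 * (A * D ^ 109) = 0 := by rw [h1, zero_mul]
  have h3 : (A * D - 11 * B * C) * (A ^ 109) ^ 2 * 11 * (A * D ^ 109) =
      11 * (A ^ 110) ^ 2 * D ^ 110 - 121 * (B * C * A ^ 219 * D ^ 109) := by ring
  rw [h3, ha, hd, h25] at h2
  have h4 : (11 : ZMod 121) ≠ 0 := by decide
  apply h4
  linear_combination h2

private theorem hyp_b (t : Tm) (h : Gd t) : (121 : ℤ) ∣ t.2.2.1 - (bE t : ℕ) * t.2.1 := by
  apply dvd_of_zm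
  have ha := zm20 _ h.1
  unfold bE
  push_cast
  have e := cast_toNat (t.2.2.1 * aI t)
  push_cast at e
  rw [e, aI_cast]
  linear_combination (-(t.2.2.1 : ZMod 121)) * ha

private theorem gE_cast (t : Tm) : (((gE t : ℕ) : ℤ) : ZMod 121) =
    (t.2.2.2.1 : ZMod 121) * (t.2.1 : ZMod 121) ^ 109 * ((oi10 (wE t) : ℤ) : ZMod 121) := by
  unfold gE
  rw [cast_toNat]
  push_cast
  rw [aI_cast]

private theorem bE_cast (t : Tm) : (((bE t : ℕ) : ℤ) : ZMod 121) =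
    (t.2.2.1 : ZMod 121) * (t.2.1 : ZMod 121) ^ 109 := by
  unfold bE
  rw [cast_toNat]
  push_cast
  rw [aI_cast]

private theorem hyp_c (t : Tm) (h : Gd t) :
    (121 : ℤ) ∣ t.2.2.2.1 - (gE t : ℕ) * om10 (wE t) * t.2.1 := by
  apply dvd_of_zm
  have ha := zm20 _ h.1
  have ho := oio (wE t)
  rw [Int.cast_sub, Int.cast_mul, Int.cast_mul, gE_cast]
  generalize ((om10 (wE t) : ℤ) : ZMod 121) = O at *
  generalize ((oi10 (wE t) : ℤ) : ZMod 121) = I at *
  generalize ((t.2.1 : ℤ) : ZMod 121) = A at *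
  generalize ((t.2.2.2.1 : ℤ) : ZMod 121) = C at *
  linear_combination (-C * A ^ 110) * ho - C * ha

private theorem hyp_d (t : Tm) (h : Gd t) :
    (121 : ℤ) ∣ t.2.2.2.2 - (11 * (gE t : ℕ) * (bE t : ℕ) + 12 ^ mE t) * om10 (wE t) * t.2.1 := by
  apply dvd_of_zm
  have ha := zm20 _ h.1
  have ho := oio (wE t)
  have h6 : (((12 : ℤ) ^ mE t : ℤ) : ZMod 121) =
      ((lE t : ℤ) : ZMod 121) * ((oi10 (wE t) : ℤ) : ZMod 121) :=
    six_pow (lE t) (lE_bd t).1 (lE_bd t).2 (lE_ne t h)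
  rw [Int.cast_sub, Int.cast_mul, Int.cast_mul, Int.cast_add, Int.cast_mul, Int.cast_mul, h6,
    gE_cast, bE_cast, lE_cast]
  push_cast
  generalize ((om10 (wE t) : ℤ) : ZMod 121) = O at *
  generalize ((oi10 (wE t) : ℤ) : ZMod 121) = I at *
  generalize ((t.2.1 : ℤ) : ZMod 121) = A at *
  generalize ((t.2.2.1 : ℤ) : ZMod 121) = B at *
  generalize ((t.2.2.2.1 : ℤ) : ZMod 121) = C at *
  generalize ((t.2.2.2.2 : ℤ) : ZMod 121) = D at *
  linear_combination (-(11 * C * B * A ^ 219 + (A * D - 11 * B * C) * A ^ 219)) * ho - D * (A ^ 110 + 1) * ha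

/-! ### binomial theorem -/

private theorem onepow {R : Type} [Ring R] (x : R) (n N : ℕ) (h : n < N) :
    (1 + x) ^ n = ∑ k ∈ Finset.range N, (n.choose k) • x ^ k := by
  have h1 : (1 + x) ^ n = ∑ k ∈ Finset.range (n + 1), (n.choose k) • x ^ k := by
    rw [add_comm 1 x, (Commute.one_right x).add_pow]
    refine Finset.sum_congr rfl fun k _ => ?_
    rw [one_pow, mul_one, nsmul_eq_mul]
    exact (Nat.cast_commute (n.choose k) (x ^ k)).eq.symm
  rw [h1]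
  refine Finset.sum_subset ?_ ?_
  · intro k hk
    rw [Finset.mem_range] at hk ⊢
    omega
  · intro k _ hk
    rw [Finset.mem_range] at hk
    rw [Nat.choose_eq_zero_of_lt (by omega), zero_smul]

/-- all the monomials of the expansion -/
private def big : Finset (ℕ × ℕ × ℕ) := Finset.range 121 ×ˢ Finset.range 11 ×ˢ Finset.range 121

private theorem expand {R : Type} [Ring R] (Y A X : R) (γ m β : ℕ) (hγ : γ < 121) (hm : m < 11)
    (hβ : β < 121) : (1 + Y) ^ γ * (1 + A) ^ m * (1 + X) ^ β =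
    ∑ u ∈ big,
      (γ.choose u.1 * m.choose u.2.1 * β.choose u.2.2) • (Y ^ u.1 * A ^ u.2.1 * X ^ u.2.2) := by
  rw [onepow Y γ 121 hγ, onepow A m 11 hm, onepow X β 121 hβ, Finset.sum_mul_sum, Finset.sum_mul, big,
    Finset.sum_product]
  refine Finset.sum_congr rfl fun i _ => ?_
  rw [Finset.sum_mul_sum, Finset.sum_product]
  refine Finset.sum_congr rfl fun j _ => ?_
  refine Finset.sum_congr rfl fun k _ => ?_
  simp only [nsmul_eq_mul, Nat.cast_mul]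
  have c1 : Commute ((m.choose j : ℕ) : R) (Y ^ i) := Nat.cast_commute _ _
  have c2 : Commute ((β.choose k : ℕ) : R) (Y ^ i * A ^ j) := Nat.cast_commute _ _
  calc ((γ.choose i : ℕ) : R) * Y ^ i * (((m.choose j : ℕ) : R) * A ^ j) *
        (((β.choose k : ℕ) : R) * X ^ k)
      = ((γ.choose i : ℕ) : R) * (Y ^ i * ((m.choose j : ℕ) : R)) * A ^ j *
        (((β.choose k : ℕ) : R) * X ^ k) := by simp only [mul_assoc]
    _ = ((γ.choose i : ℕ) : R) * (((m.choose j : ℕ) : R) * Y ^ i) * A ^ j *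
        (((β.choose k : ℕ) : R) * X ^ k) := by rw [c1.eq]
    _ = ((γ.choose i : ℕ) : R) * ((m.choose j : ℕ) : R) * ((Y ^ i * A ^ j) *
        ((β.choose k : ℕ) : R)) * X ^ k := by simp only [mul_assoc]
    _ = ((γ.choose i : ℕ) : R) * ((m.choose j : ℕ) : R) * (((β.choose k : ℕ) : R) *
        (Y ^ i * A ^ j)) * X ^ k := by rw [c2.eq]
    _ = _ := by simp only [mul_assoc]

private theorem M9_sub : M13 ⊆ big := by
  intro t ht
  simp only [M13, big, Finset.mem_filter, Finset.mem_product, Finset.mem_range] at ht ⊢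
  omega

private theorem weight_of (t : ℕ × ℕ × ℕ) (h1 : t ∈ big) (h2 : t ∉ M13) :
    13 ≤ t.1 + 10 * t.2.1 + t.2.2 := by
  simp only [M13, big, Finset.mem_filter, Finset.mem_product, Finset.mem_range] at h1 h2
  by_contra h
  exact h2 ⟨⟨by omega, by omega, by omega⟩, by omega⟩

/-! ### lowering -/

private theorem Lw_zero {q q' : ℕ} (k : ℤ) : Lw (0 : Module.End (ZMod 11) (Fn11 q q')) k := by
  intro d F _
  rw [LinearMap.zero_apply]
  exact Submodule.zero_mem _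

section
variable {r s : ℕ} (hL : S11Low0)
include hL

private theorem Lw_pow (O : Module.End (ZMod 11) (Fn11 (11 ^ r) (11 ^ s))) (k : ℤ) (h : Lw O k) (n : ℕ) :
    Lw (O ^ n) (n * k) := by
  induction n with
  | zero => simpa using (hL r s).2.2.2.2.2.1
  | succ n ih =>
    rw [pow_succ]
    have := (hL r s).1 _ _ _ _ ih h
    have e : ((n + 1 : ℕ) : ℤ) * k = n * k + k := by push_cast; ring
    rw [e]
    exact this

private theorem Lw_add (O O' : Module.End (ZMod 11) (Fn11 (11 ^ r) (11 ^ s))) (k : ℤ) (h : Lw O k)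
    (h' : Lw O' k) : Lw (O + O') k := (hL r s).2.1 _ _ _ h h'

private theorem Lw_smul (O : Module.End (ZMod 11) (Fn11 (11 ^ r) (11 ^ s))) (c : ZMod 11) (k : ℤ)
    (h : Lw O k) : Lw (c • O) k := (hL r s).2.2.1 _ _ _ h

private theorem Lw_sum {ι : Type} (S : Finset ι) (f : ι → Module.End (ZMod 11) (Fn11 (11 ^ r) (11 ^ s)))
    (k : ℤ) (h : ∀ i ∈ S, Lw (f i) k) : Lw (∑ i ∈ S, f i) k :=
  Finset.sum_induction f (fun O => Lw O k) (fun a b ha hb => Lw_add hL a b k ha hb) (Lw_zero k) h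

private theorem Lw_mon (hN : S11Nfa) (w : Fin 10) (i k j : ℕ) :
    Lw (oW w * (oB - 1) ^ i * (oD - 1) ^ k * (oA - 1) ^ j :
      Module.End (ZMod 11) (Fn11 (11 ^ r) (11 ^ s))) (i + 10 * k + j : ℤ) := by
  obtain ⟨n1, -, -, -, -, n4, -, -, n7, n8⟩ := hN r s
  have h1 := Lw_pow hL (r := r) (s := s) _ _ n8 i
  have h2 := Lw_pow hL (r := r) (s := s) _ _ n4 k
  have h3 := Lw_pow hL (r := r) (s := s) _ _ n7 j
  have h4 := (hL r s).1 _ _ _ _ ((hL r s).1 _ _ _ _ ((hL r s).1 _ _ _ _ (n1 w) h1) h2) h3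
  have e : (i + 10 * k + j : ℤ) = 0 + (i : ℤ) * 1 + k * 10 + j * 1 := by ring
  rw [e]
  exact h4

omit hL in
private theorem alg (c : ZMod 11) (P Q S1 S2 : Module.End (ZMod 11) (Fn11 (11 ^ r) (11 ^ s)))
    (h : Q = S1 + S2) : c • P - c • S2 = c • ((P - Q) + S1) := by
  have e : (P - Q) + S1 = P - S2 := by rw [h]; abel
  rw [e]
  exact (smul_sub c P S2).symm

omit hL in
private theorem alg2 (A B C D T S : Module.End (ZMod 11) (Fn11 (11 ^ r) (11 ^ s)))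
    (e1 : T = A + B) (e2 : S = C + D) (h : Lw ((A - C) + (B - D)) 13) : Lw (T - S) 13 := by
  have e3 : T - S = (A - C) + (B - D) := by rw [e1, e2]; abel
  rw [e3]
  exact h

/-- one term of the list, at its own root of unity, for a general set of monomials -/
private theorem term_gen (hN : S11Nfa) (MM BB : Finset (ℕ × ℕ × ℕ)) (hsub : MM ⊆ BB)
    (hwt : ∀ u ∈ BB, u ∉ MM → 13 ≤ u.1 + 10 * u.2.1 + u.2.2) (w : Fin 10) (γ m β : ℕ) (c : ℤ)
    (O : Module.End (ZMod 11) (Fn11 (11 ^ r) (11 ^ s)))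
    (hnf : Lw (O - oW w * oB ^ γ * oD ^ m * oA ^ β) 13)
    (hexp : (oB ^ γ * oD ^ m * oA ^ β : Module.End (ZMod 11) (Fn11 (11 ^ r) (11 ^ s))) =
      ∑ u ∈ BB, (γ.choose u.1 * m.choose u.2.1 * β.choose u.2.2) •
        ((oB - 1) ^ u.1 * (oD - 1) ^ u.2.1 * (oA - 1) ^ u.2.2)) :
    Lw ((((c : ℤ) : ZMod 11) • O :
      Module.End (ZMod 11) (Fn11 (11 ^ r) (11 ^ s))) - ∑ u ∈ MM,
        ((c * (γ.choose u.1 * m.choose u.2.1 * β.choose u.2.2 : ℕ) : ℤ) : ZMod 11) •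
        (oW w * (oB - 1) ^ u.1 * (oD - 1) ^ u.2.1 * (oA - 1) ^ u.2.2 :
          Module.End (ZMod 11) (Fn11 (11 ^ r) (11 ^ s)))) 13 := by
  have hexp2 : (oW w * oB ^ γ * oD ^ m * oA ^ β :
      Module.End (ZMod 11) (Fn11 (11 ^ r) (11 ^ s))) =
      ∑ u ∈ BB, (γ.choose u.1 * m.choose u.2.1 * β.choose u.2.2) •
      (oW w * (oB - 1) ^ u.1 * (oD - 1) ^ u.2.1 * (oA - 1) ^ u.2.2 :
        Module.End (ZMod 11) (Fn11 (11 ^ r) (11 ^ s))) := by
    rw [mul_assoc, mul_assoc, ← mul_assoc (oB ^ γ), hexp, Finset.mul_sum]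
    refine Finset.sum_congr rfl fun u _ => ?_
    rw [mul_smul_comm]
    simp only [mul_assoc]
  have hsplit : (∑ u ∈ BB, (γ.choose u.1 * m.choose u.2.1 * β.choose u.2.2) •
      (oW w * (oB - 1) ^ u.1 * (oD - 1) ^ u.2.1 * (oA - 1) ^ u.2.2 :
        Module.End (ZMod 11) (Fn11 (11 ^ r) (11 ^ s)))) =
      (∑ u ∈ BB \ MM, (γ.choose u.1 * m.choose u.2.1 * β.choose u.2.2) •
      (oW w * (oB - 1) ^ u.1 * (oD - 1) ^ u.2.1 * (oA - 1) ^ u.2.2 :
        Module.End (ZMod 11) (Fn11 (11 ^ r) (11 ^ s)))) +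
      ∑ u ∈ MM, (γ.choose u.1 * m.choose u.2.1 * β.choose u.2.2) •
      (oW w * (oB - 1) ^ u.1 * (oD - 1) ^ u.2.1 * (oA - 1) ^ u.2.2 :
        Module.End (ZMod 11) (Fn11 (11 ^ r) (11 ^ s))) :=
    (Finset.sum_sdiff hsub).symm
  have hrest : Lw (∑ u ∈ BB \ MM, (γ.choose u.1 * m.choose u.2.1 * β.choose u.2.2) •
      (oW w * (oB - 1) ^ u.1 * (oD - 1) ^ u.2.1 * (oA - 1) ^ u.2.2 :
        Module.End (ZMod 11) (Fn11 (11 ^ r) (11 ^ s)))) 13 := by
    refine Lw_sum hL _ _ _ fun u hu => ?_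
    rw [Finset.mem_sdiff] at hu
    have hw := hwt u hu.1 hu.2
    rw [← Nat.cast_smul_eq_nsmul (ZMod 11)]
    refine Lw_smul hL _ _ _ ((hL r s).2.2.2.1 _ _ 13 ?_ (Lw_mon hL hN w u.1 u.2.1 u.2.2))
    exact_mod_cast hw
  have hM : (∑ u ∈ MM,
        ((c * (γ.choose u.1 * m.choose u.2.1 * β.choose u.2.2 : ℕ) : ℤ) : ZMod 11) •
        (oW w * (oB - 1) ^ u.1 * (oD - 1) ^ u.2.1 * (oA - 1) ^ u.2.2 :
          Module.End (ZMod 11) (Fn11 (11 ^ r) (11 ^ s)))) =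
      ((c : ℤ) : ZMod 11) • ∑ u ∈ MM,
        (γ.choose u.1 * m.choose u.2.1 * β.choose u.2.2) •
      (oW w * (oB - 1) ^ u.1 * (oD - 1) ^ u.2.1 * (oA - 1) ^ u.2.2 :
        Module.End (ZMod 11) (Fn11 (11 ^ r) (11 ^ s))) := by
    rw [Finset.smul_sum]
    refine Finset.sum_congr rfl fun u _ => ?_
    rw [← Nat.cast_smul_eq_nsmul (ZMod 11), smul_smul]
    congr 1
    push_cast
    ring
  rw [hM]
  rw [alg _ _ _ _ _ (hexp2.trans hsplit)]
  exact Lw_smul hL _ _ _ (Lw_add hL _ _ _ hnf hrest)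

omit hL in
private theorem expo (γ m β : ℕ) (hγ : γ < 121) (hm : m < 11) (hβ : β < 121) :
    (oB ^ γ * oD ^ m * oA ^ β : Module.End (ZMod 11) (Fn11 (11 ^ r) (11 ^ s))) =
      ∑ u ∈ big, (γ.choose u.1 * m.choose u.2.1 * β.choose u.2.2) •
        ((oB - 1) ^ u.1 * (oD - 1) ^ u.2.1 * (oA - 1) ^ u.2.2) := by
  have hexp := expand (oB - 1 : Module.End (ZMod 11) (Fn11 (11 ^ r) (11 ^ s))) (oD - 1) (oA - 1)
    γ m β hγ hm hβ
  generalize big = BB at hexp ⊢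
  rw [add_sub_cancel, add_sub_cancel, add_sub_cancel] at hexp
  exact hexp

/-- one term of the list, at its own root of unity -/
private theorem term (hN : S11Nfa) (hNf : S11Nf) (t : Tm) (h : Gd t) :
    Lw ((((t.1 : ℤ) : ZMod 11) • op11 t.2.1 t.2.2.1 t.2.2.2.1 t.2.2.2.2 :
      Module.End (ZMod 11) (Fn11 (11 ^ r) (11 ^ s))) - ∑ u ∈ M13,
        ((t.1 * ((gE t).choose u.1 * (mE t).choose u.2.1 * (bE t).choose u.2.2 : ℕ) : ℤ) : ZMod 11) •
        (oW (wE t) * (oB - 1) ^ u.1 * (oD - 1) ^ u.2.1 * (oA - 1) ^ u.2.2 :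
          Module.End (ZMod 11) (Fn11 (11 ^ r) (11 ^ s)))) 13 := by
  have hm : mE t < 11 := m_lt _
  have hb : bE t < 121 := by
    have h1 : (t.2.2.1 * aI t) % 121 < 121 := Int.emod_lt_of_pos _ (by norm_num)
    have h2 : 0 ≤ (t.2.2.1 * aI t) % 121 := Int.emod_nonneg _ (by norm_num)
    unfold bE
    omega
  have hg : gE t < 121 := by
    have h1 : (t.2.2.2.1 * aI t * oi10 (wE t)) % 121 < 121 := Int.emod_lt_of_pos _ (by norm_num)
    have h2 : 0 ≤ (t.2.2.2.1 * aI t * oi10 (wE t)) % 121 := Int.emod_nonneg _ (by norm_num)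
    unfold gE
    omega
  have h5a : ¬ (11 : ℤ) ∣ t.2.1 := fun h' => h.1 (Int.emod_eq_zero_of_dvd h')
  have h5d : ¬ (11 : ℤ) ∣ t.2.2.2.2 := fun h' => h.2 (Int.emod_eq_zero_of_dvd h')
  have hnf := hNf r s t.2.1 t.2.2.1 t.2.2.2.1 t.2.2.2.2 (wE t) (bE t) (gE t) (mE t) h5a h5d
    (hyp_b t h) (hyp_c t h) (hyp_d t h)
  exact term_gen hL hN M13 big M9_sub weight_of (wE t) (gE t) (mE t) (bE t) t.1 _ hnf
    (expo _ _ _ hg hm hb)

omit hL in
/-- the other roots of unity do not occur -/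
private theorem collect (t : Tm) (M : Finset (ℕ × ℕ × ℕ)) (c : ℕ × ℕ × ℕ → ℤ)
    (f : Fin 10 → ℕ × ℕ × ℕ → Module.End (ZMod 11) (Fn11 (11 ^ r) (11 ^ s))) :
    (∑ w : Fin 10, ∑ u ∈ M, ((if wE t = w then c u else 0 : ℤ) : ZMod 11) • f w u) =
      ∑ u ∈ M, ((c u : ℤ) : ZMod 11) • f (wE t) u := by
  rw [Finset.sum_eq_single (wE t)]
  · refine Finset.sum_congr rfl fun u _ => ?_
    rw [if_pos rfl]
  · intro w _ hw
    refine Finset.sum_eq_zero fun u _ => ?_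
    rw [if_neg (Ne.symm hw), Int.cast_zero, zero_smul]
  · intro h
    exact absurd (Finset.mem_univ _) h

end

theorem hExp (hl : S11Low0) (hn : S11Nfa) (hf : S11Nf) : S11Exp := by
  intro r s L
  induction L with
  | nil =>
    intro _
    have e : (opL [] : Module.End (ZMod 11) (Fn11 (11 ^ r) (11 ^ s))) - ∑ w : Fin 10, ∑ t ∈ M13,
        ((cS [] w t.1 t.2.1 t.2.2 : ℤ) : ZMod 11) •
        (oW w * (oB - 1) ^ t.1 * (oD - 1) ^ t.2.1 * (oA - 1) ^ t.2.2 :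
          Module.End (ZMod 11) (Fn11 (11 ^ r) (11 ^ s))) = 0 := by
      simp [opL, cS]
    rw [e]
    exact Lw_zero 13
  | cons t L ih =>
    intro h
    have h1 := ih (fun u hu => h u (List.mem_cons_of_mem t hu))
    have h2 := term hl (r := r) (s := s) hn hf t (h t List.mem_cons_self)
    have h3 := Lw_add hl _ _ _ h2 h1
    have e1 : (opL (t :: L) : Module.End (ZMod 11) (Fn11 (11 ^ r) (11 ^ s))) =
        ((t.1 : ℤ) : ZMod 11) • op11 t.2.1 t.2.2.1 t.2.2.2.1 t.2.2.2.2 + opL L := by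
      simp [opL]
    have e2 : (∑ w : Fin 10, ∑ u ∈ M13, ((cS (t :: L) w u.1 u.2.1 u.2.2 : ℤ) : ZMod 11) •
        (oW w * (oB - 1) ^ u.1 * (oD - 1) ^ u.2.1 * (oA - 1) ^ u.2.2 :
          Module.End (ZMod 11) (Fn11 (11 ^ r) (11 ^ s)))) =
        (∑ u ∈ M13,
        ((t.1 * ((gE t).choose u.1 * (mE t).choose u.2.1 * (bE t).choose u.2.2 : ℕ) : ℤ) : ZMod 11) •
        (oW (wE t) * (oB - 1) ^ u.1 * (oD - 1) ^ u.2.1 * (oA - 1) ^ u.2.2 :
          Module.End (ZMod 11) (Fn11 (11 ^ r) (11 ^ s)))) +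
        ∑ w : Fin 10, ∑ u ∈ M13, ((cS L w u.1 u.2.1 u.2.2 : ℤ) : ZMod 11) •
        (oW w * (oB - 1) ^ u.1 * (oD - 1) ^ u.2.1 * (oA - 1) ^ u.2.2 :
          Module.End (ZMod 11) (Fn11 (11 ^ r) (11 ^ s))) := by
      rw [← collect (r := r) (s := s) t M13
        (fun u => t.1 * ((gE t).choose u.1 * (mE t).choose u.2.1 * (bE t).choose u.2.2 : ℕ))
        (fun w u => oW w * (oB - 1) ^ u.1 * (oD - 1) ^ u.2.1 * (oA - 1) ^ u.2.2)]
      rw [← Finset.sum_add_distrib]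
      refine Finset.sum_congr rfl fun w _ => ?_
      rw [← Finset.sum_add_distrib]
      refine Finset.sum_congr rfl fun u _ => ?_
      rw [← add_smul]
      congr 1
      simp only [cS, List.map_cons, List.sum_cons]
      push_cast
      ring
    generalize M13 = SS at *
    refine alg2 _ _ _ _ _ _ e1 e2 ?_
    exact h3

end Pool.Agent.Helper84.P11
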