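import Pool.Agent.Helper84.P11.StD1

/-!
Module Low0 of W7: basic properties of degrees and lowering operators modulo 11.
-/

set_option autoImplicit false

namespace Pool.Agent.Helper84.P11

open Pool.Agent.Helper84.P11

private lemma seven0 : (11 : ZMod 11) = 0 := by decide

private lemma dX_apply {q q' : ℕ} (F : Fn11 q q') (x : ZMod q) (y : ZMod q') :
    dX F x y = F (x + 1) y - F x y := rfl

private lemma dY_apply {q q' : ℕ} (F : Fn11 q q') (x : ZMod q) (y : ZMod q') :
    dY F x y = F x (y + 1) - F x y := rfl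

private lemma dXdY {q q' : ℕ} : (dX * dY : Module.End (ZMod 11) (Fn11 q q')) = dY * dX := by
  apply LinearMap.ext
  intro F
  funext x y
  rw [Module.End.mul_apply, Module.End.mul_apply, dX_apply, dY_apply, dY_apply, dY_apply,
    dX_apply, dX_apply]
  ring

private lemma fd11 {M : Type} [AddCommGroup M] (h : M) (f : M → ZMod 11) (y : M) :
    (fwdDiff h)^[11] f y = f (y + (11 : ℕ) • h) - f y := by
  rw [fwdDiff_iter_eq_sum_shift]
  have h11 : (11 : ZMod 11) = 0 := seven0
  have h55 : (55 : ZMod 11) = 0 := by decide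
  have h165 : (165 : ZMod 11) = 0 := by decide
  have h330 : (330 : ZMod 11) = 0 := by decide
  have h462 : (462 : ZMod 11) = 0 := by decide
  simp [Finset.sum_range_succ, Nat.choose, zsmul_eq_mul, h11, h55, h165, h330, h462]
  ring

private lemma dX_pow' {q q' : ℕ} (n : ℕ) (F : Fn11 q q') :
    (dX ^ (11 ^ n) : Module.End (ZMod 11) (Fn11 q q')) F = fun x y => F (x + 11 ^ n) y - F x y := by
  induction n generalizing F with
  | zero =>
    funext x y
    rw [pow_zero, pow_one, dX_apply, pow_zero]
  | succ n ih =>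
    have key : ∀ (k : ℕ) (G : Fn11 q q') (y : ZMod q'),
        (fun x => (((dX ^ (11 ^ n)) ^ k : Module.End (ZMod 11) (Fn11 q q')) G) x y) =
          (fwdDiff ((11 : ZMod q) ^ n))^[k] (fun x => G x y) := by
      intro k
      induction k with
      | zero => intro G y; rfl
      | succ k ihk =>
        intro G y
        rw [Function.iterate_succ_apply', ← ihk, pow_succ' (dX ^ (11 ^ n) : Module.End (ZMod 11) (Fn11 q q')) k]
        funext x
        rw [Module.End.mul_apply, ih]
        rfl
    funext x y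
    have h1 := congrFun (key 11 F y) x
    have h2 := fd11 ((11 : ZMod q) ^ n) (fun x => F x y) x
    rw [pow_succ 11 n, pow_mul]
    have h3 : x + (11 : ZMod q) ^ (n + 1) = x + (11 : ℕ) • (11 : ZMod q) ^ n := by
      rw [nsmul_eq_mul, pow_succ]; push_cast; ring
    rw [h3]
    exact h1.trans h2

private lemma dX_pow {q q' : ℕ} (n : ℕ) (F : Fn11 q q') (x : ZMod q) (y : ZMod q') :
    (dX ^ (11 ^ n) : Module.End (ZMod 11) (Fn11 q q')) F x y = F (x + 11 ^ n) y - F x y := by
  rw [dX_pow']

private lemma dY_pow' {q q' : ℕ} (n : ℕ) (F : Fn11 q q') :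
    (dY ^ (11 ^ n) : Module.End (ZMod 11) (Fn11 q q')) F = fun x y => F x (y + 11 ^ n) - F x y := by
  induction n generalizing F with
  | zero =>
    funext x y
    rw [pow_zero, pow_one, dY_apply, pow_zero]
  | succ n ih =>
    have key : ∀ (k : ℕ) (G : Fn11 q q') (x : ZMod q),
        (fun y => (((dY ^ (11 ^ n)) ^ k : Module.End (ZMod 11) (Fn11 q q')) G) x y) =
          (fwdDiff ((11 : ZMod q') ^ n))^[k] (fun y => G x y) := by
      intro k
      induction k with
      | zero => intro G x; rfl
      | succ k ihk =>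
        intro G x
        rw [Function.iterate_succ_apply', ← ihk, pow_succ' (dY ^ (11 ^ n) : Module.End (ZMod 11) (Fn11 q q')) k]
        funext y
        rw [Module.End.mul_apply, ih]
        rfl
    funext x y
    have h1 := congrFun (key 11 F x) y
    have h2 := fd11 ((11 : ZMod q') ^ n) (fun y => F x y) y
    rw [pow_succ 11 n, pow_mul]
    have h3 : y + (11 : ZMod q') ^ (n + 1) = y + (11 : ℕ) • (11 : ZMod q') ^ n := by
      rw [nsmul_eq_mul, pow_succ]; push_cast; ring
    rw [h3]
    exact h1.trans h2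

private lemma dY_pow {q q' : ℕ} (n : ℕ) (F : Fn11 q q') (x : ZMod q) (y : ZMod q') :
    (dY ^ (11 ^ n) : Module.End (ZMod 11) (Fn11 q q')) F x y = F x (y + 11 ^ n) - F x y := by
  rw [dY_pow']

private lemma cast0 (r : ℕ) : (11 : ZMod (11 ^ r)) ^ r = 0 := by
  have h := ZMod.natCast_self (11 ^ r)
  push_cast at h
  exact h

private lemma dX_zero (r s : ℕ) :
    (dX ^ (11 ^ r) : Module.End (ZMod 11) (Fn11 (11 ^ r) (11 ^ s))) = 0 := by
  apply LinearMap.ext
  intro F
  funext x y
  rw [dX_pow, cast0, add_zero]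
  exact sub_self _

private lemma dY_zero (r s : ℕ) :
    (dY ^ (11 ^ s) : Module.End (ZMod 11) (Fn11 (11 ^ r) (11 ^ s))) = 0 := by
  apply LinearMap.ext
  intro F
  funext x y
  rw [dY_pow, cast0, add_zero]
  exact sub_self _

private lemma wd_mono {q q' : ℕ} {d d' : ℤ} (h : d ≤ d') :
    (Wd11 d : Submodule (ZMod 11) (Fn11 q q')) ≤ Wd11 d' :=
  fun _ hF i j hij => hF i j (lt_of_le_of_lt h hij)

private lemma low_dX {q q' : ℕ} : Lw (dX : Module.End (ZMod 11) (Fn11 q q')) 1 := by
  intro d F hF i j hij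
  have h1 : (dX ^ i * dY ^ j : Module.End (ZMod 11) (Fn11 q q')) (dX F) =
      (dX ^ (i + 1) * dY ^ j : Module.End (ZMod 11) (Fn11 q q')) F := by
    rw [← Module.End.mul_apply, mul_assoc, pow_succ, mul_assoc]
    congr 2
    exact ((Commute.pow_right (show Commute (dX : Module.End (ZMod 11) (Fn11 q q')) dY from dXdY) j)).symm
  rw [h1]
  exact hF (i + 1) j (by push_cast; omega)

private lemma low_dY {q q' : ℕ} : Lw (dY : Module.End (ZMod 11) (Fn11 q q')) 1 := by
  intro d F hF i j hij
  have h1 : (dX ^ i * dY ^ j : Module.End (ZMod 11) (Fn11 q q')) (dY F) =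
      (dX ^ i * dY ^ (j + 1) : Module.End (ZMod 11) (Fn11 q q')) F := by
    rw [← Module.End.mul_apply, mul_assoc, pow_succ]
  rw [h1]
  exact hF i (j + 1) (by push_cast; omega)

private lemma const_x {q q' : ℕ} [NeZero q] (F : Fn11 q q') (hF : dX F = 0) (x : ZMod q)
    (y : ZMod q') : F x y = F 0 y := by
  have h : ∀ n : ℕ, F (n : ZMod q) y = F 0 y := by
    intro n
    induction n with
    | zero => rw [Nat.cast_zero]
    | succ n ih =>
      have h1 := congrFun (congrFun hF (n : ZMod q)) y
      rw [dX_apply] at h1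
      rw [Nat.cast_succ, sub_eq_zero.1 h1, ih]
  have h2 := h x.val
  rwa [ZMod.natCast_zmod_val] at h2

private lemma const_y {q q' : ℕ} [NeZero q'] (F : Fn11 q q') (hF : dY F = 0) (x : ZMod q)
    (y : ZMod q') : F x y = F x 0 := by
  have h : ∀ n : ℕ, F x (n : ZMod q') = F x 0 := by
    intro n
    induction n with
    | zero => rw [Nat.cast_zero]
    | succ n ih =>
      have h1 := congrFun (congrFun hF x) (n : ZMod q')
      rw [dY_apply] at h1
      rw [Nat.cast_succ, sub_eq_zero.1 h1, ih]
  have h2 := h y.val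
  rwa [ZMod.natCast_zmod_val] at h2

theorem hLow0 : S11Low0 := by
  intro r s
  refine ⟨?_, ?_, ?_, ?_, ?_, ?_, low_dX, low_dY, dXdY, dX_zero r s, dY_zero r s, ?_, ?_, ?_⟩
  · intro O O' k k' h h' d F hF
    have h1 := h _ _ (h' d F hF)
    rwa [show d - k' - k = d - (k + k') by ring] at h1
  · intro O O' k h h' d F hF
    exact Submodule.add_mem _ (h d F hF) (h' d F hF)
  · intro O c k h d F hF
    exact Submodule.smul_mem _ c (h d F hF)
  · intro O k k' hk h d F hF
    exact wd_mono (by omega) (h d F hF)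
  · intro d d' h
    exact wd_mono h
  · intro d F hF
    rw [sub_zero]
    exact hF
  · intro F i j hij
    have h1 : 11 ^ r ≤ i ∨ 11 ^ s ≤ j := by
      by_contra hcon
      push Not at hcon
      obtain ⟨h2, h3⟩ := hcon
      have h4 : (i : ℤ) < 11 ^ r := by exact_mod_cast h2
      have h5 : (j : ℤ) < 11 ^ s := by exact_mod_cast h3
      omega
    rcases h1 with h | h
    · have h2 : (dX ^ i : Module.End (ZMod 11) (Fn11 (11 ^ r) (11 ^ s))) = 0 := by
        obtain ⟨e, rfl⟩ := Nat.exists_eq_add_of_le h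
        rw [pow_add, dX_zero, zero_mul]
      rw [h2, zero_mul]
      rfl
    · have h2 : (dY ^ j : Module.End (ZMod 11) (Fn11 (11 ^ r) (11 ^ s))) = 0 := by
        obtain ⟨e, rfl⟩ := Nat.exists_eq_add_of_le h
        rw [pow_add, dY_zero, zero_mul]
      rw [h2, mul_zero]
      rfl
  · intro F hF x y
    have h1 := hF 1 0 (by norm_num)
    have h2 := hF 0 1 (by norm_num)
    rw [pow_one, pow_zero, mul_one] at h1
    rw [pow_one, pow_zero, one_mul] at h2
    rw [const_x F h1 x y, const_y F h2 0 y]
  · intro F hF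
    have h1 := hF 0 0 (by norm_num)
    rw [pow_zero, pow_zero, mul_one] at h1
    exact h1

end Pool.Agent.Helper84.P11
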