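import Pool.Agent.Helper84.P11.StD1

/-!
# Project W7, module NFA: elementary operators
-/

set_option autoImplicit false

namespace Pool.Agent.Helper84.P11

open Pool.Agent.Helper84.P11
open Finset

/-! ### units of `ZMod (11 ^ s)` -/

private theorem seven_nil (s : ℕ) : IsNilpotent (11 : ZMod (11 ^ s)) := by
  refine ⟨s, ?_⟩
  have h : ((11 ^ s : ℕ) : ZMod (11 ^ s)) = 0 := ZMod.natCast_self _
  push_cast at h
  exact h

private theorem unit_one_add {s : ℕ} (y : ZMod (11 ^ s)) : IsUnit (1 + 11 * y) :=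
  IsNilpotent.isUnit_one_add (Commute.isNilpotent_mul_right (Commute.all _ _) (seven_nil s))

private theorem inv_spec {s : ℕ} (y : ZMod (11 ^ s)) : (1 + 11 * y) * (1 + 11 * y)⁻¹ = 1 :=
  ZMod.mul_inv_of_unit _ (unit_one_add y)

private theorem exists_t (s : ℕ) : ∃ t : ZMod (11 ^ s) → ZMod (11 ^ s),
    (∀ (i : ℕ) (y y' : ZMod (11 ^ s)), (11 : ZMod (11 ^ s)) ^ i ∣ y - y' → (11 : ZMod (11 ^ s)) ^ i ∣ t y - t y') ∧
    ∀ y, y * (1 + 11 * y)⁻¹ = (y + 11 * (-1) * y ^ 2) + 121 * t (y + 11 * (-1) * y ^ 2) := by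
  let φ : ZMod (11 ^ s) → ZMod (11 ^ s) := fun y => y + 11 * (-1) * y ^ 2
  have hφ : ∀ y y', φ y - φ y' = (y - y') * (1 + 11 * (-(y + y'))) := by
    intro y y'
    simp only [φ]
    ring
  have hinj : Function.Injective φ := by
    intro y y' h
    have h1 := hφ y y'
    rw [h, sub_self] at h1
    have h2 : (y - y') * (1 + 11 * (-(y + y'))) = 0 := h1.symm
    rw [(unit_one_add (-(y + y'))).mul_left_eq_zero] at h2
    exact sub_eq_zero.1 h2
  have hbij : Function.Bijective φ := Finite.injective_iff_bijective.1 hinj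
  let ψ := (Equiv.ofBijective φ hbij).symm
  have hψ : ∀ v, φ (ψ v) = v := fun v => (Equiv.ofBijective φ hbij).apply_symm_apply v
  have hψ' : ∀ y, ψ (φ y) = y := fun y => (Equiv.ofBijective φ hbij).symm_apply_apply y
  refine ⟨fun v => (ψ v) ^ 3 * (1 + 11 * ψ v)⁻¹, ?_, ?_⟩
  · intro i v v' h
    have h1 : (11 : ZMod (11 ^ s)) ^ i ∣ ψ v - ψ v' := by
      have h2 := hφ (ψ v) (ψ v')
      rw [hψ, hψ] at h2
      rw [h2] at h
      exact (unit_one_add _).dvd_mul_right.1 h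
    have e : (ψ v) ^ 3 * (1 + 11 * ψ v)⁻¹ - (ψ v') ^ 3 * (1 + 11 * ψ v')⁻¹ =
        (ψ v - ψ v') * (((ψ v) ^ 2 + ψ v * ψ v' + (ψ v') ^ 2 + 11 * (ψ v * ψ v') * (ψ v + ψ v'))
          * (1 + 11 * ψ v)⁻¹ * (1 + 11 * ψ v')⁻¹) := by
      linear_combination (-((ψ v) ^ 3 * (1 + 11 * ψ v)⁻¹)) * inv_spec (ψ v')
        + ((ψ v') ^ 3 * (1 + 11 * ψ v')⁻¹) * inv_spec (ψ v)
    show (11 : ZMod (11 ^ s)) ^ i ∣ (ψ v) ^ 3 * (1 + 11 * ψ v)⁻¹ - (ψ v') ^ 3 * (1 + 11 * ψ v')⁻¹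
    rw [e]
    exact Dvd.dvd.mul_right h1 _
  · intro y
    have h1 : ψ (y + 11 * (-1) * y ^ 2) = y := hψ' y
    simp only [h1]
    linear_combination (y - 11 * y ^ 2) * inv_spec y

/-! ### the substitutions `y ↦ y / (1 + 11 y)` -/

private theorem kY (ha : S11SubA) (hb : S11SubB) {r s : ℕ}
    (hm : ∀ d d' : ℤ, d ≤ d' → (Wd11 d : Submodule (ZMod 11) (Fn11 (11 ^ r) (11 ^ s))) ≤ Wd11 d') {d : ℤ}
    {F : Fn11 (11 ^ r) (11 ^ s)} (hF : F ∈ Wd11 d) :
    (fun x y => F x (y * (1 + 11 * y)⁻¹) - F x y) ∈ (Wd11 (d - 9) : Submodule (ZMod 11) (Fn11 (11 ^ r) (11 ^ s))) := by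
  obtain ⟨t, ht, hyt⟩ := exists_t s
  have h1 := (ha r s).1 t ht d F hF
  have h2 := (hb r s 2 (Or.inr rfl)).1 (-1) d F hF
  have h3 := (hb r s 2 (Or.inr rfl)).1 (-1) (d - 13) _ h1
  have e : (fun x y => F x (y * (1 + 11 * y)⁻¹) - F x y) =
      (fun x y => F x (y + 11 * (-1) * y ^ 2) - F x y) +
      (fun x y => (F x (y + 11 * (-1) * y ^ 2 + 121 * t (y + 11 * (-1) * y ^ 2)) - F x (y + 11 * (-1) * y ^ 2))
        - (F x (y + 121 * t y) - F x y)) + (fun x y => F x (y + 121 * t y) - F x y) := by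
    funext x y
    simp only [Pi.add_apply]
    rw [← hyt y]
    ring
  rw [e]
  refine add_mem (add_mem (hm _ _ ?_ h2) (hm _ _ ?_ h3)) (hm _ _ ?_ h1)
  · push_cast
    omega
  · push_cast
    omega
  · omega

private theorem kX (ha : S11SubA) (hb : S11SubB) {r s : ℕ}
    (hm : ∀ d d' : ℤ, d ≤ d' → (Wd11 d : Submodule (ZMod 11) (Fn11 (11 ^ r) (11 ^ s))) ≤ Wd11 d') {d : ℤ}
    {F : Fn11 (11 ^ r) (11 ^ s)} (hF : F ∈ Wd11 d) :
    (fun x y => F (x * (1 + 11 * x)⁻¹) y - F x y) ∈ (Wd11 (d - 9) : Submodule (ZMod 11) (Fn11 (11 ^ r) (11 ^ s))) := by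
  obtain ⟨t, ht, hyt⟩ := exists_t r
  have h1 := (ha r s).2 t ht d F hF
  have h2 := (hb r s 2 (Or.inr rfl)).2 (-1) d F hF
  have h3 := (hb r s 2 (Or.inr rfl)).2 (-1) (d - 13) _ h1
  have e : (fun x y => F (x * (1 + 11 * x)⁻¹) y - F x y) =
      (fun x y => F (x + 11 * (-1) * x ^ 2) y - F x y) +
      (fun x y => (F (x + 11 * (-1) * x ^ 2 + 121 * t (x + 11 * (-1) * x ^ 2)) y - F (x + 11 * (-1) * x ^ 2) y)
        - (F (x + 121 * t x) y - F x y)) + (fun x y => F (x + 121 * t x) y - F x y) := by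
    funext x y
    simp only [Pi.add_apply]
    rw [← hyt x]
    ring
  rw [e]
  refine add_mem (add_mem (hm _ _ ?_ h2) (hm _ _ ?_ h3)) (hm _ _ ?_ h1)
  · push_cast
    omega
  · push_cast
    omega
  · omega

/-! ### scaling -/

private theorem dX_apply {q q' : ℕ} (F : Fn11 q q') (x : ZMod q) (y : ZMod q') :
    (dX F) x y = F (x + 1) y - F x y := rfl

private theorem dY_apply {q q' : ℕ} (F : Fn11 q q') (x : ZMod q) (y : ZMod q') :
    (dY F) x y = F x (y + 1) - F x y := rfl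

private theorem shX {q q' : ℕ} (n : ℕ) (F : Fn11 q q') (x : ZMod q) (y : ZMod q') :
    (((1 + dX : Module.End (ZMod 11) (Fn11 q q')) ^ n) F) x y = F (x + n) y := by
  induction n generalizing x with
  | zero => simp
  | succ n ih =>
    rw [pow_succ', Module.End.mul_apply, LinearMap.add_apply, Pi.add_apply, Pi.add_apply, dX_apply,
      Module.End.one_apply, ih, ih]
    push_cast
    have e : x + 1 + (n : ZMod q) = x + (n + 1) := by ring
    rw [e]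
    ring

private theorem shY {q q' : ℕ} (n : ℕ) (F : Fn11 q q') (x : ZMod q) (y : ZMod q') :
    (((1 + dY : Module.End (ZMod 11) (Fn11 q q')) ^ n) F) x y = F x (y + n) := by
  induction n generalizing y with
  | zero => simp
  | succ n ih =>
    rw [pow_succ', Module.End.mul_apply, LinearMap.add_apply, Pi.add_apply, Pi.add_apply, dY_apply,
      Module.End.one_apply, ih, ih]
    push_cast
    have e : y + 1 + (n : ZMod q') = y + (n + 1) := by ring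
    rw [e]
    ring

private def sc (c c' : ℕ) {q q' : ℕ} : Module.End (ZMod 11) (Fn11 q q') where
  toFun F x y := F (c * x) (c' * y)
  map_add' _ _ := rfl
  map_smul' _ _ := rfl

private theorem sc_apply (c c' : ℕ) {q q' : ℕ} (F : Fn11 q q') (x : ZMod q) (y : ZMod q') :
    (sc c c' F) x y = F (c * x) (c' * y) := rfl

private theorem semX (c c' : ℕ) {q q' : ℕ} :
    SemiconjBy (sc c c' : Module.End (ZMod 11) (Fn11 q q')) ((1 + dX) ^ c - 1) dX := by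
  show (sc c c' : Module.End (ZMod 11) (Fn11 q q')) * ((1 + dX) ^ c - 1) = dX * sc c c'
  refine LinearMap.ext fun F => ?_
  funext x y
  rw [Module.End.mul_apply, Module.End.mul_apply, sc_apply, LinearMap.sub_apply, Pi.sub_apply, Pi.sub_apply, shX,
    Module.End.one_apply, dX_apply, sc_apply, sc_apply]
  have e : (c : ZMod q) * x + c = c * (x + 1) := by ring
  rw [e]

private theorem semY (c c' : ℕ) {q q' : ℕ} :
    SemiconjBy (sc c c' : Module.End (ZMod 11) (Fn11 q q')) ((1 + dY) ^ c' - 1) dY := by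
  show (sc c c' : Module.End (ZMod 11) (Fn11 q q')) * ((1 + dY) ^ c' - 1) = dY * sc c c'
  refine LinearMap.ext fun F => ?_
  funext x y
  rw [Module.End.mul_apply, Module.End.mul_apply, sc_apply, LinearMap.sub_apply, Pi.sub_apply, Pi.sub_apply, shY,
    Module.End.one_apply, dY_apply, sc_apply, sc_apply]
  have e : (c' : ZMod q') * y + c' = c' * (y + 1) := by ring
  rw [e]

/-- scaling preserves degrees -/
private theorem sc_mem {q q' : ℕ} (hc : Commute (dX : Module.End (ZMod 11) (Fn11 q q')) dY) (c c' : ℕ) {d : ℤ}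
    {F : Fn11 q q'} (hF : F ∈ Wd11 d) : sc c c' F ∈ Wd11 d := by
  intro i j hij
  set P : Module.End (ZMod 11) (Fn11 q q') := ∑ k ∈ range c, (1 + dX) ^ k with hP
  set Q : Module.End (ZMod 11) (Fn11 q q') := ∑ k ∈ range c', (1 + dY) ^ k with hQ
  have eP : (1 + dX : Module.End (ZMod 11) (Fn11 q q')) ^ c - 1 = P * dX := by
    rw [hP, ← geom_sum_mul, add_sub_cancel_left]
  have eQ : (1 + dY : Module.End (ZMod 11) (Fn11 q q')) ^ c' - 1 = Q * dY := by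
    rw [hQ, ← geom_sum_mul, add_sub_cancel_left]
  have cP : Commute P dX := by
    rw [hP]
    exact Commute.sum_left _ _ _ fun k _ => (((Commute.one_left _).add_left (Commute.refl _)).pow_left k)
  have cQ : Commute Q dY := by
    rw [hQ]
    exact Commute.sum_left _ _ _ fun k _ => (((Commute.one_left _).add_left (Commute.refl _)).pow_left k)
  have cQX : Commute (dX : Module.End (ZMod 11) (Fn11 q q')) Q := by
    rw [hQ]
    exact Commute.sum_right _ _ _ fun k _ => (((Commute.one_right _).add_right hc).pow_right k)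
  have h1 : SemiconjBy (sc c c' : Module.End (ZMod 11) (Fn11 q q')) ((P * dX) ^ i * (Q * dY) ^ j) (dX ^ i * dY ^ j) := by
    have hx := semX c c' (q := q) (q' := q')
    have hy := semY c c' (q := q) (q' := q')
    rw [eP] at hx
    rw [eQ] at hy
    exact (hx.pow_right i).mul_right (hy.pow_right j)
  have h2 : (P * dX) ^ i * (Q * dY) ^ j = P ^ i * Q ^ j * (dX ^ i * dY ^ j) := by
    rw [cP.mul_pow, cQ.mul_pow]
    have h3 : dX ^ i * Q ^ j = Q ^ j * dX ^ i := (cQX.pow_pow i j).eq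
    calc P ^ i * dX ^ i * (Q ^ j * dY ^ j) = P ^ i * (dX ^ i * Q ^ j) * dY ^ j := by simp only [mul_assoc]
      _ = P ^ i * Q ^ j * (dX ^ i * dY ^ j) := by rw [h3]; simp only [mul_assoc]
  have h4 : (dX ^ i * dY ^ j : Module.End (ZMod 11) (Fn11 q q')) * sc c c' = sc c c' * (P ^ i * Q ^ j * (dX ^ i * dY ^ j)) := by
    rw [← h2]
    exact h1.symm
  have h5 := LinearMap.congr_fun h4 F
  rw [Module.End.mul_apply] at h5
  rw [h5, Module.End.mul_apply, Module.End.mul_apply, hF i j hij, map_zero, map_zero]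

private theorem oW_eq {r s : ℕ} (w : Fin 10) (c c' : ℕ)
    (h1 : ((c : ℕ) : ZMod (11 ^ r)) = ((om10 w : ℤ) : ZMod (11 ^ r)))
    (h2 : ((c' : ℕ) : ZMod (11 ^ s)) = ((om10 w : ℤ) : ZMod (11 ^ s))⁻¹) :
    (oW w : Module.End (ZMod 11) (Fn11 (11 ^ r) (11 ^ s))) = sc c c' := by
  refine LinearMap.ext fun F => ?_
  funext x y
  show F ((((0 : ℤ) : ZMod (11 ^ r)) + ((om10 w : ℤ) : ZMod (11 ^ r)) * x) * ((((1 : ℤ)) : ZMod (11 ^ r)) + 11 * ((0 : ℤ) : ZMod (11 ^ r)) * x)⁻¹)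
    ((((0 : ℤ) : ZMod (11 ^ s)) + ((1 : ℤ) : ZMod (11 ^ s)) * y) * (((om10 w : ℤ) : ZMod (11 ^ s)) + 11 * ((0 : ℤ) : ZMod (11 ^ s)) * y)⁻¹) = _
  have e1 : (((0 : ℤ) : ZMod (11 ^ r)) + ((om10 w : ℤ) : ZMod (11 ^ r)) * x) * ((((1 : ℤ)) : ZMod (11 ^ r)) + 11 * ((0 : ℤ) : ZMod (11 ^ r)) * x)⁻¹
      = ((om10 w : ℤ) : ZMod (11 ^ r)) * x := by
    rw [Int.cast_zero, Int.cast_one, mul_zero, zero_mul, add_zero, ZMod.inv_one, mul_one, zero_add]
  have e2 : (((0 : ℤ) : ZMod (11 ^ s)) + ((1 : ℤ) : ZMod (11 ^ s)) * y) * (((om10 w : ℤ) : ZMod (11 ^ s)) + 11 * ((0 : ℤ) : ZMod (11 ^ s)) * y)⁻¹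
      = ((om10 w : ℤ) : ZMod (11 ^ s))⁻¹ * y := by
    rw [Int.cast_zero, Int.cast_one, mul_zero, zero_mul, add_zero, zero_add, one_mul, mul_comm]
  rw [e1, e2, sc_apply, h1, h2]

private theorem castEq (n k : ℕ) (a b : ℤ) (h : ((n * k : ℕ) : ℤ) ∣ b - a) : (a : ZMod n) = (b : ZMod n) := by
  rw [ZMod.intCast_eq_intCast_iff_dvd_sub]
  refine dvd_trans ?_ h
  push_cast
  exact dvd_mul_right _ _

private theorem om6_coprime (w : Fin 10) : IsCoprime (om10 w) 11 := by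
  rw [Int.isCoprime_iff_gcd_eq_one]
  revert w
  decide

private theorem om6_pow (w : Fin 10) : ((om10 w : ℤ) : ZMod 11) ^ 10 = 1 := by
  revert w
  decide

private theorem reps (w : Fin 10) (r s : ℕ) : ∃ c c' : ℕ,
    ((c : ℕ) : ZMod (11 ^ r)) = ((om10 w : ℤ) : ZMod (11 ^ r)) ∧
    ((c' : ℕ) : ZMod (11 ^ s)) = ((om10 w : ℤ) : ZMod (11 ^ s))⁻¹ ∧
    ((c : ℕ) : ZMod 11) = ((om10 w : ℤ) : ZMod 11) ∧
    ((c' : ℕ) : ZMod 11) = ((om10 w : ℤ) : ZMod 11) ^ 9 := by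
  have hpos : ∀ n : ℕ, (0 : ℤ) < 11 ^ n := fun n => by positivity
  have hrep : ∀ (a : ℤ) (n : ℕ), ∃ c : ℕ, (11 : ℤ) ^ (n + 1) ∣ a - c := by
    intro a n
    refine ⟨(a % 11 ^ (n + 1)).toNat, ?_⟩
    rw [Int.toNat_of_nonneg (Int.emod_nonneg _ (hpos _).ne')]
    exact Int.dvd_self_sub_emod
  obtain ⟨c, hc⟩ := hrep (om10 w) r
  obtain ⟨v, t, hvt⟩ := (IsCoprime.pow_right (om6_coprime w) : IsCoprime (om10 w) (11 ^ (s + 1)))
  obtain ⟨c', hc'⟩ := hrep v s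
  have hc1 : (11 : ℤ) ^ (s + 1) ∣ 1 - om10 w * c' := by
    obtain ⟨u, hu⟩ := hc'
    refine ⟨t + om10 w * u, ?_⟩
    linear_combination (-1 : ℤ) * hvt + om10 w * hu
  have hs : ((om10 w : ℤ) : ZMod (11 ^ s)) * ((c' : ℕ) : ZMod (11 ^ s)) = 1 := by
    have h := castEq (11 ^ s) 11 (om10 w * c') 1 (by push_cast; rw [← pow_succ]; exact hc1)
    push_cast at h
    exact h
  have h7 : ((om10 w : ℤ) : ZMod 11) * ((c' : ℕ) : ZMod 11) = 1 := by
    have h := castEq 11 (11 ^ s) (om10 w * c') 1 (by push_cast; rw [← pow_succ']; exact hc1)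
    push_cast at h
    exact h
  refine ⟨c, c', ?_, ?_, ?_, ?_⟩
  · have h := castEq (11 ^ r) 11 (c : ℤ) (om10 w) (by push_cast; rw [← pow_succ]; exact hc)
    push_cast at h
    exact h
  · have hu : IsUnit ((om10 w : ℤ) : ZMod (11 ^ s)) := IsUnit.of_mul_eq_one _ hs
    have hi := ZMod.inv_mul_of_unit _ hu
    calc ((c' : ℕ) : ZMod (11 ^ s)) = (((om10 w : ℤ) : ZMod (11 ^ s))⁻¹ * ((om10 w : ℤ) : ZMod (11 ^ s))) * ((c' : ℕ) : ZMod (11 ^ s)) := by
          rw [hi, one_mul]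
      _ = ((om10 w : ℤ) : ZMod (11 ^ s))⁻¹ * (((om10 w : ℤ) : ZMod (11 ^ s)) * ((c' : ℕ) : ZMod (11 ^ s))) := by ring
      _ = ((om10 w : ℤ) : ZMod (11 ^ s))⁻¹ := by rw [hs, mul_one]
  · have h := castEq 11 (11 ^ r) (c : ℤ) (om10 w) (by push_cast; rw [← pow_succ']; exact hc)
    push_cast at h
    exact h
  · calc ((c' : ℕ) : ZMod 11) = ((om10 w : ℤ) : ZMod 11) ^ 10 * ((c' : ℕ) : ZMod 11) := by rw [om6_pow, one_mul]
      _ = ((om10 w : ℤ) : ZMod 11) ^ 9 * (((om10 w : ℤ) : ZMod 11) * ((c' : ℕ) : ZMod 11)) := by ring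
      _ = ((om10 w : ℤ) : ZMod 11) ^ 9 := by rw [h7, mul_one]

/-! ### leading terms -/

private theorem lw_zero {q q' : ℕ} (k : ℤ) : Lw (0 : Module.End (ZMod 11) (Fn11 q q')) k := by
  intro d F _
  rw [LinearMap.zero_apply]
  exact zero_mem _

private theorem lwA (hl : S11Low0) {r s : ℕ} (D : Module.End (ZMod 11) (Fn11 (11 ^ r) (11 ^ s))) (hD : Lw D 1) (c : ℕ) :
    Lw ((1 + D) ^ c - 1 - (c : ZMod 11) • D) 2 ∧ Lw ((1 + D) ^ c - 1) 1 := by
  obtain ⟨hmul, hadd, hsmul, hlow, -⟩ := hl r s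
  have key : ∀ c : ℕ, Lw ((1 + D) ^ c - 1 - (c : ZMod 11) • D) 2 → Lw ((1 + D) ^ c - 1) 1 := by
    intro c h
    have e : (1 + D) ^ c - 1 = ((1 + D) ^ c - 1 - (c : ZMod 11) • D) + (c : ZMod 11) • D := by abel
    rw [e]
    exact hadd _ _ _ (hlow _ _ _ (by norm_num) h) (hsmul _ _ _ hD)
  have main : Lw ((1 + D) ^ c - 1 - (c : ZMod 11) • D) 2 := by
    induction c with
    | zero =>
      rw [pow_zero, sub_self, Nat.cast_zero, zero_smul, sub_zero]
      exact lw_zero 2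
    | succ c ih =>
      have e : (1 + D) ^ (c + 1) - 1 - ((c + 1 : ℕ) : ZMod 11) • D =
          ((1 + D) ^ c - 1 - (c : ZMod 11) • D) + ((1 + D) ^ c - 1) * D := by
        rw [pow_succ, Nat.cast_succ, add_smul, one_smul, mul_add, mul_one, sub_mul, one_mul]
        abel
      rw [e]
      have h2 := hmul _ _ _ _ (key c ih) hD
      exact hadd _ _ _ ih (hlow _ _ _ (by norm_num) h2)
  exact ⟨main, key c main⟩

private theorem lwPow (hl : S11Low0) {r s : ℕ} (A : Module.End (ZMod 11) (Fn11 (11 ^ r) (11 ^ s))) (hA : Lw A 1) (i : ℕ) :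
    Lw (A ^ i) i := by
  obtain ⟨hmul, -, -, hlow, -, h1, -⟩ := hl r s
  induction i with
  | zero =>
    rw [pow_zero]
    exact_mod_cast h1
  | succ i ih =>
    rw [pow_succ]
    have h2 := hmul _ _ _ _ ih hA
    exact hlow _ _ _ (by push_cast; omega) h2

private theorem lwDiff (hl : S11Low0) {r s : ℕ} (A D : Module.End (ZMod 11) (Fn11 (11 ^ r) (11 ^ s))) (a : ZMod 11)
    (hA : Lw A 1) (hD : Lw D 1) (hAD : Lw (A - a • D) 2) (i : ℕ) :
    Lw (A ^ i - a ^ i • D ^ i) (i + 1) := by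
  obtain ⟨hmul, hadd, hsmul, hlow, -⟩ := hl r s
  induction i with
  | zero =>
    rw [pow_zero, pow_zero, pow_zero, one_smul, sub_self]
    exact lw_zero _
  | succ i ih =>
    have e : A ^ (i + 1) - a ^ (i + 1) • D ^ (i + 1) =
        A ^ i * (A - a • D) + (A ^ i - a ^ i • D ^ i) * (a • D) := by
      rw [pow_succ, pow_succ, pow_succ, mul_sub, sub_mul, smul_mul_smul_comm]
      abel
    rw [e]
    refine hadd _ _ _ ?_ ?_
    · exact hlow _ _ _ (by push_cast; omega) (hmul _ _ _ _ (lwPow hl A hA i) hAD)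
    · exact hlow _ _ _ (by push_cast; omega) (hmul _ _ _ _ ih (hsmul _ a _ hD))

theorem hNfa (hl : S11Low0) (ha : S11SubA) (hb : S11SubB) : S11Nfa := by
  intro r s
  obtain ⟨hmul, hadd, hsmul, hlow, hm, -, hX, hY, hXY, -, -, -, hcst, hneg⟩ := hl r s
  have hc : Commute (dX : Module.End (ZMod 11) (Fn11 (11 ^ r) (11 ^ s))) dY := hXY
  have hS : ∀ (c c' : ℕ), Lw (sc c c' : Module.End (ZMod 11) (Fn11 (11 ^ r) (11 ^ s))) 0 := by
    intro c c' d F hF
    rw [sub_zero]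
    exact sc_mem hc _ _ hF
  have hsc0 : ∀ (c c' : ℕ) (F : Fn11 (11 ^ r) (11 ^ s)), F ∈ Wd11 0 → sc c c' F = F := by
    intro c c' F hF
    funext x y
    rw [sc_apply, hcst F hF, hcst F hF x y]
  have hA5 : Lw (oA - 1 - dX : Module.End (ZMod 11) (Fn11 (11 ^ r) (11 ^ s))) 9 := by
    intro d F hF
    have h1 : (1 + dX : Module.End (ZMod 11) (Fn11 (11 ^ r) (11 ^ s))) F ∈ Wd11 d := by
      rw [LinearMap.add_apply, Module.End.one_apply]
      exact add_mem hF (hm _ _ (by omega) (hX d F hF))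
    have h2 := kY ha hb hm h1
    have e : (oA - 1 - dX : Module.End (ZMod 11) (Fn11 (11 ^ r) (11 ^ s))) F =
        fun x y => ((1 + dX : Module.End (ZMod 11) (Fn11 (11 ^ r) (11 ^ s))) F) x (y * (1 + 11 * y)⁻¹)
          - ((1 + dX : Module.End (ZMod 11) (Fn11 (11 ^ r) (11 ^ s))) F) x y := by
      funext x y
      have e1 : ∀ z, ((1 + dX : Module.End (ZMod 11) (Fn11 (11 ^ r) (11 ^ s))) F) x z = F (x + 1) z := by
        intro z
        rw [LinearMap.add_apply, Pi.add_apply, Pi.add_apply, Module.End.one_apply, dX_apply]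
        ring
      rw [e1, e1, LinearMap.sub_apply, LinearMap.sub_apply, Pi.sub_apply, Pi.sub_apply, Pi.sub_apply, Pi.sub_apply,
        Module.End.one_apply, dX_apply]
      have e2 : (oA F) x y = F (x + 1) (y * (1 + 11 * y)⁻¹) := by
        show F ((((1 : ℤ) : ZMod (11 ^ r)) + ((1 : ℤ) : ZMod (11 ^ r)) * x) * ((((1 : ℤ)) : ZMod (11 ^ r)) + 11 * ((0 : ℤ) : ZMod (11 ^ r)) * x)⁻¹)
          ((((0 : ℤ) : ZMod (11 ^ s)) + ((1 : ℤ) : ZMod (11 ^ s)) * y) * (((1 : ℤ) : ZMod (11 ^ s)) + 11 * ((1 : ℤ) : ZMod (11 ^ s)) * y)⁻¹) = _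
        have f1 : (((1 : ℤ) : ZMod (11 ^ r)) + ((1 : ℤ) : ZMod (11 ^ r)) * x) * ((((1 : ℤ)) : ZMod (11 ^ r)) + 11 * ((0 : ℤ) : ZMod (11 ^ r)) * x)⁻¹
            = x + 1 := by
          rw [Int.cast_zero, Int.cast_one, mul_zero, zero_mul, add_zero, ZMod.inv_one, mul_one]
          ring
        have f2 : (((0 : ℤ) : ZMod (11 ^ s)) + ((1 : ℤ) : ZMod (11 ^ s)) * y) * (((1 : ℤ) : ZMod (11 ^ s)) + 11 * ((1 : ℤ) : ZMod (11 ^ s)) * y)⁻¹
            = y * (1 + 11 * y)⁻¹ := by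
          rw [Int.cast_zero, Int.cast_one, one_mul, mul_one, zero_add]
        rw [f1, f2]
      rw [e2]
      ring
    rw [e]
    exact h2
  have hB5 : Lw (oB - 1 - dY : Module.End (ZMod 11) (Fn11 (11 ^ r) (11 ^ s))) 9 := by
    intro d F hF
    have h1 : (1 + dY : Module.End (ZMod 11) (Fn11 (11 ^ r) (11 ^ s))) F ∈ Wd11 d := by
      rw [LinearMap.add_apply, Module.End.one_apply]
      exact add_mem hF (hm _ _ (by omega) (hY d F hF))
    have h2 := kX ha hb hm h1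
    have e : (oB - 1 - dY : Module.End (ZMod 11) (Fn11 (11 ^ r) (11 ^ s))) F =
        fun x y => ((1 + dY : Module.End (ZMod 11) (Fn11 (11 ^ r) (11 ^ s))) F) (x * (1 + 11 * x)⁻¹) y
          - ((1 + dY : Module.End (ZMod 11) (Fn11 (11 ^ r) (11 ^ s))) F) x y := by
      funext x y
      have e1 : ∀ z, ((1 + dY : Module.End (ZMod 11) (Fn11 (11 ^ r) (11 ^ s))) F) z y = F z (y + 1) := by
        intro z
        rw [LinearMap.add_apply, Pi.add_apply, Pi.add_apply, Module.End.one_apply, dY_apply]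
        ring
      rw [e1, e1, LinearMap.sub_apply, LinearMap.sub_apply, Pi.sub_apply, Pi.sub_apply, Pi.sub_apply, Pi.sub_apply,
        Module.End.one_apply, dY_apply]
      have e2 : (oB F) x y = F (x * (1 + 11 * x)⁻¹) (y + 1) := by
        show F ((((0 : ℤ) : ZMod (11 ^ r)) + ((1 : ℤ) : ZMod (11 ^ r)) * x) * ((((1 : ℤ)) : ZMod (11 ^ r)) + 11 * ((1 : ℤ) : ZMod (11 ^ r)) * x)⁻¹)
          ((((1 : ℤ) : ZMod (11 ^ s)) + ((1 : ℤ) : ZMod (11 ^ s)) * y) * (((1 : ℤ) : ZMod (11 ^ s)) + 11 * ((0 : ℤ) : ZMod (11 ^ s)) * y)⁻¹) = _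
        have f1 : (((0 : ℤ) : ZMod (11 ^ r)) + ((1 : ℤ) : ZMod (11 ^ r)) * x) * ((((1 : ℤ)) : ZMod (11 ^ r)) + 11 * ((1 : ℤ) : ZMod (11 ^ r)) * x)⁻¹
            = x * (1 + 11 * x)⁻¹ := by
          rw [Int.cast_zero, Int.cast_one, one_mul, mul_one, zero_add]
        have f2 : (((1 : ℤ) : ZMod (11 ^ s)) + ((1 : ℤ) : ZMod (11 ^ s)) * y) * (((1 : ℤ) : ZMod (11 ^ s)) + 11 * ((0 : ℤ) : ZMod (11 ^ s)) * y)⁻¹
            = y + 1 := by
          rw [Int.cast_zero, Int.cast_one, mul_zero, zero_mul, add_zero, ZMod.inv_one, mul_one]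
          ring
        rw [f1, f2]
      rw [e2]
      ring
    rw [e]
    exact h2
  refine ⟨?_, ?_, ?_, ?_, ?_, ?_, hA5, hB5, ?_, ?_⟩
  · intro w
    obtain ⟨c, c', h1, h2, -, -⟩ := reps w r s
    rw [oW_eq w c c' h1 h2]
    exact hS c c'
  · intro w
    obtain ⟨c, c', h1, h2, h3, -⟩ := reps w r s
    rw [oW_eq w c c' h1 h2, ← h3]
    have hx := semX c c' (q := 11 ^ r) (q' := 11 ^ s)
    have e : (dX * sc c c' - (c : ZMod 11) • (sc c c' * dX) : Module.End (ZMod 11) (Fn11 (11 ^ r) (11 ^ s))) =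
        sc c c' * ((1 + dX) ^ c - 1 - (c : ZMod 11) • dX) := by
      rw [← hx.eq, mul_sub (sc c c') ((1 + dX) ^ c - 1), mul_smul_comm]
    rw [e]
    exact hlow _ _ _ (by norm_num) (hmul _ _ _ _ (hS c c') (lwA hl dX hX c).1)
  · intro w
    obtain ⟨c, c', h1, h2, -, h4⟩ := reps w r s
    rw [oW_eq w c c' h1 h2, ← h4]
    have hy := semY c c' (q := 11 ^ r) (q' := 11 ^ s)
    have e : (dY * sc c c' - (c' : ZMod 11) • (sc c c' * dY) : Module.End (ZMod 11) (Fn11 (11 ^ r) (11 ^ s))) =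
        sc c c' * ((1 + dY) ^ c' - 1 - (c' : ZMod 11) • dY) := by
      rw [← hy.eq, mul_sub (sc c c') ((1 + dY) ^ c' - 1), mul_smul_comm]
    rw [e]
    exact hlow _ _ _ (by norm_num) (hmul _ _ _ _ (hS c c') (lwA hl dY hY c').1)
  · intro w F hF
    obtain ⟨c, c', h1, h2, -, -⟩ := reps w r s
    rw [oW_eq w c c' h1 h2]
    exact hsc0 c c' F hF
  · intro w i j F hF
    obtain ⟨c, c', h1, h2, h3, h4⟩ := reps w r s
    rw [oW_eq w c c' h1 h2, pow_add, pow_mul, ← h4, ← h3]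
    obtain ⟨hA2, hA1⟩ := lwA hl (dX : Module.End (ZMod 11) (Fn11 (11 ^ r) (11 ^ s))) hX c
    obtain ⟨hB2, hB1⟩ := lwA hl (dY : Module.End (ZMod 11) (Fn11 (11 ^ r) (11 ^ s))) hY c'
    have hsem : (dX ^ i * dY ^ j : Module.End (ZMod 11) (Fn11 (11 ^ r) (11 ^ s))) * sc c c' =
        sc c c' * (((1 + dX) ^ c - 1) ^ i * ((1 + dY) ^ c' - 1) ^ j) :=
      (((semX c c' (q := 11 ^ r) (q' := 11 ^ s)).pow_right i).mul_right
        ((semY c c' (q := 11 ^ r) (q' := 11 ^ s)).pow_right j)).symm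
    set A : Module.End (ZMod 11) (Fn11 (11 ^ r) (11 ^ s)) := (1 + dX) ^ c - 1 with hAdef
    set B : Module.End (ZMod 11) (Fn11 (11 ^ r) (11 ^ s)) := (1 + dY) ^ c' - 1 with hBdef
    have hlw : Lw (A ^ i * B ^ j - ((c : ZMod 11) ^ i * (c' : ZMod 11) ^ j) • (dX ^ i * dY ^ j)) (i + j + 1) := by
      have e : A ^ i * B ^ j - ((c : ZMod 11) ^ i * (c' : ZMod 11) ^ j) • (dX ^ i * dY ^ j) =
          A ^ i * (B ^ j - (c' : ZMod 11) ^ j • dY ^ j) +
          (A ^ i - (c : ZMod 11) ^ i • dX ^ i) * ((c' : ZMod 11) ^ j • dY ^ j) := by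
        rw [mul_sub, sub_mul, smul_mul_smul_comm]
        abel
      rw [e]
      refine hadd _ _ _ ?_ ?_
      · exact hlow _ _ _ (by omega) (hmul _ _ _ _ (lwPow hl A hA1 i) (lwDiff hl B dY _ hB1 hY hB2 j))
      · exact hlow _ _ _ (by omega) (hmul _ _ _ _ (lwDiff hl A dX _ hA1 hX hA2 i) (hsmul _ _ _ (lwPow hl dY hY j)))
    have h0 : (A ^ i * B ^ j - ((c : ZMod 11) ^ i * (c' : ZMod 11) ^ j) • (dX ^ i * dY ^ j) :
        Module.End (ZMod 11) (Fn11 (11 ^ r) (11 ^ s))) F = 0 := by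
      refine hneg _ ?_
      refine hm _ _ ?_ (hlw _ F hF)
      omega
    have hG : (dX ^ i * dY ^ j : Module.End (ZMod 11) (Fn11 (11 ^ r) (11 ^ s))) F ∈ Wd11 0 := by
      refine hm _ _ ?_ (hmul _ _ _ _ (lwPow hl dX hX i) (lwPow hl dY hY j) _ F hF)
      omega
    rw [LinearMap.sub_apply, sub_eq_zero] at h0
    rw [← Module.End.mul_apply, hsem, Module.End.mul_apply, h0, LinearMap.smul_apply, map_smul, hsc0 c c' _ hG]
  · -- `oD`
    intro d F hF
    have h6 : (12 : ZMod (11 ^ s)) * (12 : ZMod (11 ^ s))⁻¹ = 1 := by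
      have h := inv_spec (1 : ZMod (11 ^ s))
      have e : (1 + 11 * 1 : ZMod (11 ^ s)) = 12 := by norm_num
      rw [e] at h
      exact h
    have h1 := (hb r s 1 (Or.inl rfl)).1 (-(12 : ZMod (11 ^ s))⁻¹) d F hF
    have hG : (fun x y => F x (y + 11 * (-(12 : ZMod (11 ^ s))⁻¹) * y ^ 1)) ∈
        (Wd11 d : Submodule (ZMod 11) (Fn11 (11 ^ r) (11 ^ s))) := by
      have e : (fun x y => F x (y + 11 * (-(12 : ZMod (11 ^ s))⁻¹) * y ^ 1)) =
          (fun x y => F x (y + 11 * (-(12 : ZMod (11 ^ s))⁻¹) * y ^ 1) - F x y) + F := by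
        funext x y
        rw [Pi.add_apply, Pi.add_apply, sub_add_cancel]
      rw [e]
      exact add_mem (hm _ _ (by push_cast; omega) h1) hF
    have h2 := (hb r s 1 (Or.inl rfl)).2 1 d _ hG
    have e : (oD - 1 : Module.End (ZMod 11) (Fn11 (11 ^ r) (11 ^ s))) F =
        (fun x y => F (x + 11 * 1 * x ^ 1) (y + 11 * (-(12 : ZMod (11 ^ s))⁻¹) * y ^ 1)
          - F x (y + 11 * (-(12 : ZMod (11 ^ s))⁻¹) * y ^ 1)) +
        (fun x y => F x (y + 11 * (-(12 : ZMod (11 ^ s))⁻¹) * y ^ 1) - F x y) := by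
      funext x y
      rw [LinearMap.sub_apply, Pi.sub_apply, Pi.sub_apply, Module.End.one_apply, Pi.add_apply, Pi.add_apply,
        sub_add_sub_cancel]
      congr 1
      show F ((((0 : ℤ) : ZMod (11 ^ r)) + ((12 : ℤ) : ZMod (11 ^ r)) * x) * ((((1 : ℤ)) : ZMod (11 ^ r)) + 11 * ((0 : ℤ) : ZMod (11 ^ r)) * x)⁻¹)
        ((((0 : ℤ) : ZMod (11 ^ s)) + ((1 : ℤ) : ZMod (11 ^ s)) * y) * (((12 : ℤ) : ZMod (11 ^ s)) + 11 * ((0 : ℤ) : ZMod (11 ^ s)) * y)⁻¹) = _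
      have f1 : (((0 : ℤ) : ZMod (11 ^ r)) + ((12 : ℤ) : ZMod (11 ^ r)) * x) * ((((1 : ℤ)) : ZMod (11 ^ r)) + 11 * ((0 : ℤ) : ZMod (11 ^ r)) * x)⁻¹
          = x + 11 * 1 * x ^ 1 := by
        rw [Int.cast_zero, Int.cast_one, mul_zero, zero_mul, add_zero, ZMod.inv_one, mul_one]
        push_cast
        ring
      have f2 : (((0 : ℤ) : ZMod (11 ^ s)) + ((1 : ℤ) : ZMod (11 ^ s)) * y) * (((12 : ℤ) : ZMod (11 ^ s)) + 11 * ((0 : ℤ) : ZMod (11 ^ s)) * y)⁻¹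
          = y + 11 * (-(12 : ZMod (11 ^ s))⁻¹) * y ^ 1 := by
        rw [Int.cast_zero, Int.cast_one, mul_zero, zero_mul, add_zero]
        push_cast
        linear_combination y * h6
      rw [f1, f2]
    rw [e]
    exact add_mem (hm _ _ (by push_cast; omega) h2) (hm _ _ (by push_cast; omega) h1)
  · have e : (oA - 1 : Module.End (ZMod 11) (Fn11 (11 ^ r) (11 ^ s))) = (oA - 1 - dX) + dX := by abel
    rw [e]
    exact hadd _ _ _ (hlow _ _ _ (by norm_num) hA5) hX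
  · have e : (oB - 1 : Module.End (ZMod 11) (Fn11 (11 ^ r) (11 ^ s))) = (oB - 1 - dY) + dY := by abel
    rw [e]
    exact hadd _ _ _ (hlow _ _ _ (by norm_num) hB5) hY

end Pool.Agent.Helper84.P11
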