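import Pool.Agent.Helper84.P11.StD1

/-!
# Project W7 (MP_1d384c_nt), module Opm: products of lists, relations as lists
-/

set_option autoImplicit false

namespace Pool.Agent.Helper84.P11

open Pool.Agent.Helper84.P11

section lists

variable {q q' : ℕ}

private theorem om_nil : (opL [] : Module.End (ZMod 11) (Fn11 q q')) = 0 := by simp [opL]

private theorem om_cons (t : Tm) (L : List Tm) : (opL (t :: L) : Module.End (ZMod 11) (Fn11 q q')) =
    ((t.1 : ℤ) : ZMod 11) • op11 t.2.1 t.2.2.1 t.2.2.2.1 t.2.2.2.2 + opL L := by simp [opL]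

private theorem om_app (L L' : List Tm) :
    (opL (L ++ L') : Module.End (ZMod 11) (Fn11 q q')) = opL L + opL L' := by simp [opL]

private theorem om_mul_smul (a b : ZMod 11) (X : Module.End (ZMod 11) (Fn11 q q')) :
    (a * b) • X = a • b • X := by
  refine LinearMap.ext fun F => ?_
  funext x y
  change (a * b) * X F x y = a * (b * X F x y)
  ring

private theorem om_smul_add (a : ZMod 11) (X Y : Module.End (ZMod 11) (Fn11 q q')) :
    a • (X + Y) = a • X + a • Y := by
  refine LinearMap.ext fun F => ?_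
  funext x y
  change a * (X F x y + Y F x y) = a * X F x y + a * Y F x y
  ring

private theorem om_scl (n : ℤ) (L : List Tm) :
    (opL (sclL n L) : Module.End (ZMod 11) (Fn11 q q')) = ((n : ℤ) : ZMod 11) • opL L := by
  induction L with
  | nil => simp [sclL, om_nil]
  | cons t L ih =>
    have h : sclL n (t :: L) = (n * t.1, t.2) :: sclL n L := rfl
    rw [h, om_cons, om_cons, ih, om_smul_add]
    push_cast
    rw [om_mul_smul]

end lists

private theorem om_gd_mul {t t' : Tm} (h : Gd t) (h' : Gd t') : Gd (mulT t t') := by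
  obtain ⟨h1, h2⟩ := h
  obtain ⟨h3, h4⟩ := h'
  have hp : Prime (11 : ℤ) := Int.prime_iff_natAbs_prime.2 (by norm_num)
  unfold Gd mulT
  simp only
  constructor
  · intro h
    have h5 : (11 : ℤ) ∣ t.2.1 * t'.2.1 := by
      have := Int.dvd_of_emod_eq_zero h
      have e : t.2.1 * t'.2.1 = (t.2.1 * t'.2.1 + 11 * t.2.2.1 * t'.2.2.2.1) -
        11 * (t.2.2.1 * t'.2.2.2.1) := by ring
      rw [e]
      exact dvd_sub this (dvd_mul_right _ _)
    rcases hp.dvd_or_dvd h5 with h6 | h6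
    · exact h1 (Int.emod_eq_zero_of_dvd h6)
    · exact h3 (Int.emod_eq_zero_of_dvd h6)
  · intro h
    have h5 : (11 : ℤ) ∣ t.2.2.2.2 * t'.2.2.2.2 := by
      have := Int.dvd_of_emod_eq_zero h
      have e : t.2.2.2.2 * t'.2.2.2.2 = (11 * t.2.2.2.1 * t'.2.2.1 + t.2.2.2.2 * t'.2.2.2.2) -
        11 * (t.2.2.2.1 * t'.2.2.1) := by ring
      rw [e]
      exact dvd_sub this (dvd_mul_right _ _)
    rcases hp.dvd_or_dvd h5 with h6 | h6
    · exact h2 (Int.emod_eq_zero_of_dvd h6)
    · exact h4 (Int.emod_eq_zero_of_dvd h6)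

private theorem om_gd_mulL {L L' : List Tm} (h : ∀ t ∈ L, Gd t) (h' : ∀ t ∈ L', Gd t) :
    ∀ t ∈ mulL L L', Gd t := by
  intro t ht
  unfold mulL at ht
  rw [List.mem_flatMap] at ht
  obtain ⟨a, ha, hb⟩ := ht
  rw [List.mem_map] at hb
  obtain ⟨b, hb, rfl⟩ := hb
  exact om_gd_mul (h a ha) (h' b hb)

section ops

variable {r s : ℕ}

private theorem om_op_mul (hTrm : S11Trm) (a b c d a' b' c' d' : ℤ) (ha : ¬ 11 ∣ a) (hd : ¬ 11 ∣ d)
    (ha' : ¬ 11 ∣ a') (hd' : ¬ 11 ∣ d') :
    (op11 a b c d * op11 a' b' c' d' : Module.End (ZMod 11) (Fn11 (11 ^ r) (11 ^ s))) =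
      op11 (a * a' + 11 * b * c') (a * b' + b * d') (c * a' + d * c') (11 * c * b' + d * d') := by
  refine LinearMap.ext fun F => ?_
  exact (hTrm (ZMod 11) r s F).1 a b c d a' b' c' d' ha hd ha' hd'

private theorem om_nd {a : ℤ} (h : a % 11 ≠ 0) : ¬ (11 : ℤ) ∣ a := fun h' => h (Int.emod_eq_zero_of_dvd h')

private theorem om_map (hTrm : S11Trm) (t : Tm) (ht : Gd t) (L : List Tm) (hL : ∀ t ∈ L, Gd t) :
    (opL (L.map fun t' => mulT t t') : Module.End (ZMod 11) (Fn11 (11 ^ r) (11 ^ s))) =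
      (((t.1 : ℤ) : ZMod 11) • op11 t.2.1 t.2.2.1 t.2.2.2.1 t.2.2.2.2) * opL L := by
  induction L with
  | nil => simp [om_nil]
  | cons t' L ih =>
    have h1 := hL t' List.mem_cons_self
    rw [List.map_cons, om_cons, om_cons, ih fun x hx => hL x (List.mem_cons_of_mem _ hx), mul_add]
    congr 1
    rw [smul_mul_smul_comm, om_op_mul hTrm _ _ _ _ _ _ _ _ (om_nd ht.1) (om_nd ht.2) (om_nd h1.1)
      (om_nd h1.2)]
    unfold mulT
    push_cast
    rfl

private theorem om_mulL (hTrm : S11Trm) (L L' : List Tm) (hL : ∀ t ∈ L, Gd t) (hL' : ∀ t ∈ L', Gd t) :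
    (opL (mulL L L') : Module.End (ZMod 11) (Fn11 (11 ^ r) (11 ^ s))) = opL L * opL L' := by
  induction L with
  | nil => simp [mulL, om_nil]
  | cons t L ih =>
    have h : mulL (t :: L) L' = (L'.map fun t' => mulT t t') ++ mulL L L' := by
      unfold mulL
      rw [List.flatMap_cons]
    rw [h, om_app, om_map hTrm t (hL t List.mem_cons_self) L' hL', om_cons, add_mul,
      ih fun x hx => hL x (List.mem_cons_of_mem _ hx)]

end ops

/-- Module Opm. -/
theorem hOpm (hm : S11Trm) : S11Opm := by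
  intro r s
  exact ⟨fun L L' hL hL' => ⟨om_gd_mulL hL hL', om_mulL hm L L' hL hL'⟩, fun n L => om_scl n L,
    fun L L' => om_app L L'⟩

end Pool.Agent.Helper84.P11
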