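import Pool.Agent.Helper84.P11.StD1

/-!
# Module SubA of project W7 (MP_1d384c_nt): substitutions lower the degree
-/

set_option autoImplicit false

namespace Pool.Agent.Helper84.P11


/-! ### swapping the variables -/

private def sw {q q' : ℕ} (F : Fn11 q q') : Fn11 q' q := fun x y => F y x

private theorem dX_sw {q q' : ℕ} (i : ℕ) : ∀ F : Fn11 q q',
    ((dX ^ i : Module.End (ZMod 11) (Fn11 q' q)) (sw F)) =
      sw ((dY ^ i : Module.End (ZMod 11) (Fn11 q q')) F) := by
  induction i with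
  | zero => intro F; rfl
  | succ i ih =>
    intro F
    rw [pow_succ, pow_succ, Module.End.mul_apply, Module.End.mul_apply, ← ih]
    rfl

private theorem dY_sw {q q' : ℕ} (i : ℕ) : ∀ F : Fn11 q q',
    ((dY ^ i : Module.End (ZMod 11) (Fn11 q' q)) (sw F)) =
      sw ((dX ^ i : Module.End (ZMod 11) (Fn11 q q')) F) := by
  induction i with
  | zero => intro F; rfl
  | succ i ih =>
    intro F
    rw [pow_succ, pow_succ, Module.End.mul_apply, Module.End.mul_apply, ← ih]
    rfl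

private theorem sw_mem (h0 : S11Low0) {r s : ℕ} {d : ℤ} {F : Fn11 (11 ^ r) (11 ^ s)}
    (hF : F ∈ (Wd11 d : Submodule (ZMod 11) (Fn11 (11 ^ r) (11 ^ s)))) :
    sw F ∈ (Wd11 d : Submodule (ZMod 11) (Fn11 (11 ^ s) (11 ^ r))) := by
  obtain ⟨-, -, -, -, -, -, -, -, hc, -⟩ := h0 r s
  intro i j hij
  have hc' : Commute (dX : Module.End (ZMod 11) (Fn11 (11 ^ r) (11 ^ s))) dY := hc
  rw [Module.End.mul_apply, dY_sw, dX_sw, ← Module.End.mul_apply, ← (hc'.pow_pow j i).eq,
    hF j i (by omega)]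
  rfl

/-! ### characteristic seven -/

private theorem seven_zero {q q' : ℕ} (n : ℕ) :
    ((11 * n : ℕ) : Module.End (ZMod 11) (Fn11 q q')) = 0 := by
  apply LinearMap.ext
  intro F
  rw [Module.End.natCast_apply]
  funext x y
  rw [Pi.smul_apply, Pi.smul_apply, nsmul_eq_mul, Nat.cast_mul]
  have h7 : ((11 : ℕ) : ZMod 11) = 0 := by decide
  rw [h7, zero_mul, zero_mul]
  rfl

private theorem frob1 {q q' : ℕ} (T : Module.End (ZMod 11) (Fn11 q q')) :
    (1 + T) ^ 11 = 1 + T ^ 11 := by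
  have hc : Commute T 1 := Commute.one_right T
  rw [add_comm 1 T, hc.add_pow]
  simp only [Finset.sum_range_succ, Finset.sum_range_zero, one_pow, mul_one, zero_add, pow_zero]
  have c1 : Nat.choose 11 1 = 11 * 1 := by decide
  have c2 : Nat.choose 11 2 = 11 * 5 := by decide
  have c3 : Nat.choose 11 3 = 11 * 15 := by decide
  have c4 : Nat.choose 11 4 = 11 * 30 := by decide
  have c5 : Nat.choose 11 5 = 11 * 42 := by decide
  have c6 : Nat.choose 11 6 = 11 * 42 := by decide
  have c7 : Nat.choose 11 7 = 11 * 30 := by decide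
  have c8 : Nat.choose 11 8 = 11 * 15 := by decide
  have c9 : Nat.choose 11 9 = 11 * 5 := by decide
  have c10 : Nat.choose 11 10 = 11 * 1 := by decide
  rw [c1, c2, c3, c4, c5, c6, c7, c8, c9, c10, Nat.choose_self, Nat.choose_zero_right]
  have h11 : ((11 : ℕ) : Module.End (ZMod 11) (Fn11 q q')) = 0 := seven_zero 1
  simp only [seven_zero, Nat.cast_one, mul_zero, mul_one, add_zero, h11]

private theorem frob {q q' : ℕ} (k : ℕ) :
    ((1 + dY) ^ (11 ^ k) : Module.End (ZMod 11) (Fn11 q q')) = 1 + dY ^ (11 ^ k) := by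
  induction k with
  | zero => rw [pow_zero, pow_one, pow_one]
  | succ k ih =>
    rw [pow_succ 11 k, pow_mul, pow_mul, ih]
    generalize (dY ^ (11 ^ k) : Module.End (ZMod 11) (Fn11 q q')) = T
    exact frob1 T

private theorem shift {q q' : ℕ} (n : ℕ) : ∀ (F : Fn11 q q') (x : ZMod q) (y : ZMod q'),
    ((1 + dY) ^ n : Module.End (ZMod 11) (Fn11 q q')) F x y = F x (y + n) := by
  induction n with
  | zero =>
    intro F x y
    rw [pow_zero, Nat.cast_zero, add_zero]
    rfl
  | succ n ih =>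
    intro F x y
    rw [pow_succ, Module.End.mul_apply, ih]
    change F x (y + n) + (F x (y + n + 1) - F x (y + n)) = F x (y + ((n + 1 : ℕ) : ZMod q'))
    have h1 : (y + n + 1 : ZMod q') = y + ((n + 1 : ℕ) : ZMod q') := by
      push_cast
      ring
    rw [h1]
    ring

private theorem newton {q q' : ℕ} (T : Module.End (ZMod 11) (Fn11 q q')) (u M : ℕ) (hu : u < M)
    (F : Fn11 q q') (x : ZMod q) (y : ZMod q') :
    ((1 + T) ^ u) F x y = ∑ m ∈ Finset.range M, (u.choose m : ZMod 11) * (T ^ m) F x y := by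
  have hc : Commute T 1 := Commute.one_right T
  rw [add_comm, hc.add_pow]
  have h1 : ∀ m ∈ Finset.range (u + 1), ((T ^ m * 1 ^ (u - m) * (u.choose m :
      Module.End (ZMod 11) (Fn11 q q'))) F x y) = (u.choose m : ZMod 11) * (T ^ m) F x y := by
    intro m _
    rw [one_pow, mul_one, Module.End.mul_apply, Module.End.natCast_apply, map_nsmul,
      Pi.smul_apply, Pi.smul_apply, nsmul_eq_mul]
  rw [LinearMap.sum_apply, Finset.sum_apply, Finset.sum_apply, Finset.sum_congr rfl h1]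
  apply Finset.sum_subset
  · intro m hm
    rw [Finset.mem_range] at hm ⊢
    omega
  · intro m _ hm
    rw [Finset.mem_range] at hm
    rw [Nat.choose_eq_zero_of_lt (by omega), Nat.cast_zero, zero_mul]

/-- the expansion -/
private theorem expand {q s : ℕ} (k : ℕ) (t : ZMod (11 ^ s)) (F : Fn11 q (11 ^ s)) (x : ZMod q)
    (y : ZMod (11 ^ s)) :
    F x (y + 11 ^ k * t) = ∑ m ∈ Finset.range (11 ^ s), (t.val.choose m : ZMod 11) *
      ((dY ^ (11 ^ k * m) : Module.End (ZMod 11) (Fn11 q (11 ^ s))) F) x y := by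
  have : NeZero (11 ^ s) := ⟨pow_ne_zero _ (by norm_num)⟩
  have h1 : (y + 11 ^ k * t : ZMod (11 ^ s)) = y + ((11 ^ k * t.val : ℕ) : ZMod (11 ^ s)) := by
    push_cast
    rw [ZMod.natCast_zmod_val]
  rw [h1, ← shift (11 ^ k * t.val) F x y, pow_mul, frob, newton _ _ _ (ZMod.val_lt t)]
  refine Finset.sum_congr rfl fun m _ => ?_
  rw [pow_mul]

/-! ### binomial coefficients -/

private theorem choose_add (u i m : ℕ) (hm : m < 11 ^ i) :
    ((u + 11 ^ i).choose m : ZMod 11) = (u.choose m : ZMod 11) := by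
  rw [Nat.add_choose_eq]
  push_cast
  rw [Finset.sum_eq_single (m, 0)]
  · simp
  · rintro ⟨a, b⟩ hab hne
    have hab' : a + b = m := by simpa using hab
    have hb : b ≠ 0 := by
      intro hb0
      apply hne
      have : a = m := by omega
      rw [this, hb0]
    have h1 : 11 ∣ (11 ^ i).choose b :=
      Nat.Prime.dvd_choose_pow (by norm_num : Nat.Prime 11) hb (by omega)
    have h2 : (((11 ^ i).choose b : ℕ) : ZMod 11) = 0 := (ZMod.natCast_eq_zero_iff _ _).2 h1
    change ((u.choose a : ℕ) : ZMod 11) * (((11 ^ i).choose b : ℕ) : ZMod 11) = 0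
    rw [h2, mul_zero]
  · intro h
    exact absurd (by simp) h

private theorem choose_add_mul (u i m : ℕ) (hm : m < 11 ^ i) (n : ℕ) :
    ((u + 11 ^ i * n).choose m : ZMod 11) = (u.choose m : ZMod 11) := by
  induction n with
  | zero => simp
  | succ n ih =>
    rw [mul_add, mul_one, ← add_assoc, choose_add _ _ _ hm, ih]

private theorem choose_mod {u v i m : ℕ} (hm : m < 11 ^ i) (h : u ≡ v [MOD 11 ^ i]) :
    (u.choose m : ZMod 11) = (v.choose m : ZMod 11) := by
  have h1 := Nat.mod_add_div u (11 ^ i)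
  have h2 := Nat.mod_add_div v (11 ^ i)
  have h3 : u % 11 ^ i = v % 11 ^ i := h
  rw [← h1, ← h2, choose_add_mul _ _ _ hm, choose_add_mul _ _ _ hm, h3]

private theorem val_mod {s i : ℕ} (his : i ≤ s) {a b : ZMod (11 ^ s)}
    (h : (11 : ZMod (11 ^ s)) ^ i ∣ a - b) : a.val ≡ b.val [MOD 11 ^ i] := by
  have : NeZero (11 ^ s) := ⟨pow_ne_zero _ (by norm_num)⟩
  have hd : 11 ^ i ∣ 11 ^ s := pow_dvd_pow 11 his
  obtain ⟨c, hc⟩ := h
  have h1 : ZMod.castHom hd (ZMod (11 ^ i)) a = ZMod.castHom hd (ZMod (11 ^ i)) b := by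
    rw [← sub_eq_zero, ← map_sub, hc, map_mul, map_pow, map_ofNat]
    have h2 : ((11 : ZMod (11 ^ i)) ^ i) = 0 := by
      have := ZMod.natCast_self (11 ^ i)
      push_cast at this
      exact this
    rw [h2, zero_mul]
  rw [← ZMod.natCast_eq_natCast_iff, ZMod.natCast_val, ZMod.natCast_val]
  exact h1

/-! ### the coefficient functions -/

private theorem coef_mem {q s : ℕ} (t : ZMod (11 ^ s) → ZMod (11 ^ s))
    (ht : ∀ (i : ℕ) (y y' : ZMod (11 ^ s)), (11 : ZMod (11 ^ s)) ^ i ∣ y - y' →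
      (11 : ZMod (11 ^ s)) ^ i ∣ t y - t y') (m : ℕ) (hm1 : 1 ≤ m) (hm2 : m < 11 ^ s) :
    (fun _ y => (((t y).val.choose m : ℕ) : ZMod 11)) ∈
      (Wd11 (11 * m - 1) : Submodule (ZMod 11) (Fn11 q (11 ^ s))) := by
  obtain ⟨i, hi1, hi2⟩ : ∃ i, m < 11 ^ i ∧ 11 ^ i ≤ 11 * m := by
    refine ⟨Nat.log 11 m + 1, Nat.lt_pow_succ_log_self (by norm_num) m, ?_⟩
    rw [pow_succ]
    have := Nat.pow_log_le_self 11 (x := m) (by omega)
    omega
  have his : i ≤ s := by
    by_contra hcon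
    have h1 : 11 ^ (s + 1) ≤ 11 ^ i := Nat.pow_le_pow_right (by norm_num) (by omega)
    rw [pow_succ] at h1
    omega
  intro a b hab
  rw [Module.End.mul_apply]
  by_cases hb : 11 ^ i ≤ b
  · -- the operator kills it
    have h1 : (dY ^ (11 ^ i) : Module.End (ZMod 11) (Fn11 q (11 ^ s)))
        (fun _ y => (((t y).val.choose m : ℕ) : ZMod 11)) = 0 := by
      have h2 : (dY ^ (11 ^ i) : Module.End (ZMod 11) (Fn11 q (11 ^ s))) =
          (1 + dY) ^ (11 ^ i) - 1 := by
        rw [frob, add_sub_cancel_left]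
      rw [h2]
      funext x y
      rw [LinearMap.sub_apply, Pi.sub_apply, Pi.sub_apply, shift]
      change (((t (y + ((11 ^ i : ℕ) : ZMod (11 ^ s)))).val.choose m : ℕ) : ZMod 11) -
        (((t y).val.choose m : ℕ) : ZMod 11) = 0
      have h4 := ht i (y + ((11 ^ i : ℕ) : ZMod (11 ^ s))) y (by
        rw [add_sub_cancel_left]
        push_cast
        exact dvd_rfl)
      rw [choose_mod hi1 (val_mod his h4), sub_self]
    have h2 : b = (b - 11 ^ i) + 11 ^ i := by omega
    rw [h2, pow_add, Module.End.mul_apply, h1, map_zero, map_zero]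
  · -- here the exponent in the other variable is positive
    have ha : a = (a - 1) + 1 := by omega
    have h1 : ∀ n : ℕ, ∀ g : ZMod (11 ^ s) → ZMod 11,
        ∃ g' : ZMod (11 ^ s) → ZMod 11, (dY ^ n : Module.End (ZMod 11) (Fn11 q (11 ^ s)))
          (fun _ y => g y) = fun _ y => g' y := by
      intro n
      induction n with
      | zero => intro g; exact ⟨g, rfl⟩
      | succ n ih =>
        intro g
        obtain ⟨g', hg'⟩ := ih (fun y => g (y + 1) - g y)
        refine ⟨g', ?_⟩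
        rw [pow_succ, Module.End.mul_apply]
        exact hg'
    obtain ⟨g', hg'⟩ := h1 b (fun y => (((t y).val.choose m : ℕ) : ZMod 11))
    rw [hg', ha, pow_succ, Module.End.mul_apply]
    have h2 : (dX : Module.End (ZMod 11) (Fn11 q (11 ^ s))) (fun _ y => g' y) = 0 := by
      funext x y
      exact sub_self (g' y)
    rw [h2, map_zero]

private theorem dY_pow_mem (h0 : S11Low0) {r s : ℕ} {d : ℤ} (m : ℕ) : ∀ {F : Fn11 (11 ^ r) (11 ^ s)},
    F ∈ (Wd11 d : Submodule (ZMod 11) (Fn11 (11 ^ r) (11 ^ s))) →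
    ((dY ^ m : Module.End (ZMod 11) (Fn11 (11 ^ r) (11 ^ s))) F) ∈
      (Wd11 (d - m) : Submodule (ZMod 11) (Fn11 (11 ^ r) (11 ^ s))) := by
  obtain ⟨-, -, -, -, -, -, -, hdY, -⟩ := h0 r s
  induction m with
  | zero =>
    intro F hF
    rw [pow_zero, Nat.cast_zero, sub_zero]
    exact hF
  | succ m ih =>
    intro F hF
    rw [pow_succ', Module.End.mul_apply]
    have h1 := hdY _ _ (ih hF)
    have h2 : d - m - 1 = d - ((m + 1 : ℕ) : ℤ) := by push_cast; ring
    rwa [h2] at h1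

/-- the part in the variable `y` -/
private theorem part_y (h0 : S11Low0) (hP : S11Prd) (r s : ℕ)
    (t : ZMod (11 ^ s) → ZMod (11 ^ s))
    (ht : ∀ (i : ℕ) (y y' : ZMod (11 ^ s)), (11 : ZMod (11 ^ s)) ^ i ∣ y - y' →
      (11 : ZMod (11 ^ s)) ^ i ∣ t y - t y') (d : ℤ) (F : Fn11 (11 ^ r) (11 ^ s))
    (hF : F ∈ (Wd11 d : Submodule (ZMod 11) (Fn11 (11 ^ r) (11 ^ s)))) :
    (fun x y => F x (y + 121 * t y) - F x y) ∈
        (Wd11 (d - 13) : Submodule (ZMod 11) (Fn11 (11 ^ r) (11 ^ s))) := by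
  obtain ⟨-, -, -, -, hmono, -⟩ := h0 r s
  obtain ⟨n, hn⟩ : ∃ n, 11 ^ s = n + 1 :=
    ⟨11 ^ s - 1, by have := Nat.one_le_pow s 11 (by norm_num); omega⟩
  -- the expansion
  have hexp : (fun x y => F x (y + 121 * t y) - F x y) =
      ∑ m ∈ Finset.range n, (fun (x : ZMod (11 ^ r)) (y : ZMod (11 ^ s)) =>
        (((t y).val.choose (m + 1) : ℕ) : ZMod 11) *
        ((dY ^ (11 ^ 2 * (m + 1)) : Module.End (ZMod 11) (Fn11 (11 ^ r) (11 ^ s))) F) x y) := by
    funext x y
    have h9 : (121 : ZMod (11 ^ s)) = 11 ^ 2 := by norm_num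
    rw [Finset.sum_apply, Finset.sum_apply, h9, expand 2 (t y) F x y]
    have h1 : Finset.range (11 ^ s) = Finset.range (n + 1) := by rw [hn]
    rw [h1, Finset.sum_range_succ']
    have h2 : ((dY ^ (11 ^ 2 * 0) : Module.End (ZMod 11) (Fn11 (11 ^ r) (11 ^ s))) F) x y = F x y := by
      rw [mul_zero, pow_zero]
      rfl
    rw [h2, Nat.choose_zero_right, Nat.cast_one, one_mul, add_sub_cancel_right]
  rw [hexp]
  refine Submodule.sum_mem _ fun m hm => ?_
  have hm' := Finset.mem_range.1 hm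
  refine hmono _ _ ?_ (hP r s _ _ _ _ (coef_mem t ht (m + 1) (by omega) (by omega))
    (dY_pow_mem h0 (11 ^ 2 * (m + 1)) hF))
  push_cast
  have h1 : (0 : ℤ) ≤ (m : ℤ) := Int.natCast_nonneg m
  linarith

/-- Module SubA. -/
theorem hSubA (hLow0 : S11Low0) (hPrd : S11Prd) : S11SubA := by
  intro r s
  constructor
  · intro t ht d F hF
    exact part_y hLow0 hPrd r s t ht d F hF
  · intro t ht d F hF
    exact sw_mem hLow0 (part_y hLow0 hPrd s r t ht d (sw F) (sw_mem hLow0 hF))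

end Pool.Agent.Helper84.P11
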