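import Pool.Agent.Helper84.P11.StD1

/-!
# Project W7 (level 11^n), module SubB: the substitutions y + 11 u y^e lower degrees by 11 - e
-/

set_option autoImplicit false

namespace Pool.Agent.Helper84.P11

open Pool.Agent.Helper84.P11

/-! ### swapping the variables -/

private def sw {q q' : ℕ} (F : Fn11 q q') : Fn11 q' q := fun x y => F y x

private theorem dX_sw {q q' : ℕ} (i : ℕ) : ∀ F : Fn11 q q',
    ((dX ^ i : Module.End (ZMod 11) (Fn11 q' q)) (sw F)) =
      sw ((dY ^ i : Module.End (ZMod 11) (Fn11 q q')) F) := by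
  induction i with
  | zero => intro F; rfl
  | succ i ih =>
    intro F
    rw [pow_succ, pow_succ, Module.End.mul_apply, Module.End.mul_apply, ← ih]
    rfl

private theorem dY_sw {q q' : ℕ} (i : ℕ) : ∀ F : Fn11 q q',
    ((dY ^ i : Module.End (ZMod 11) (Fn11 q' q)) (sw F)) =
      sw ((dX ^ i : Module.End (ZMod 11) (Fn11 q q')) F) := by
  induction i with
  | zero => intro F; rfl
  | succ i ih =>
    intro F
    rw [pow_succ, pow_succ, Module.End.mul_apply, Module.End.mul_apply, ← ih]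
    rfl

private theorem sw_mem (h0 : S11Low0) {r s : ℕ} {d : ℤ} {F : Fn11 (11 ^ r) (11 ^ s)}
    (hF : F ∈ (Wd11 d : Submodule (ZMod 11) (Fn11 (11 ^ r) (11 ^ s)))) :
    sw F ∈ (Wd11 d : Submodule (ZMod 11) (Fn11 (11 ^ s) (11 ^ r))) := by
  obtain ⟨-, -, -, -, -, -, -, -, hc, -⟩ := h0 r s
  intro i j hij
  have hc' : Commute (dX : Module.End (ZMod 11) (Fn11 (11 ^ r) (11 ^ s))) dY := hc
  rw [Module.End.mul_apply, dY_sw, dX_sw, ← Module.End.mul_apply, ← (hc'.pow_pow j i).eq,
    hF j i (by omega)]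
  rfl

/-! ### characteristic seven -/

private theorem seven_smul' {q q' : ℕ} (T : Module.End (ZMod 11) (Fn11 q q')) : (11 : ℕ) • T = 0 := by
  apply LinearMap.ext
  intro F
  funext x y
  change (11 : ℕ) • (T F x y) = 0
  rw [nsmul_eq_mul]
  have h : ((11 : ℕ) : ZMod 11) = 0 := by decide
  rw [h, zero_mul]

private theorem seven_zero' {q q' : ℕ} (c : ℕ) : ((11 * c : ℕ) : Module.End (ZMod 11) (Fn11 q q')) = 0 := by
  have h := seven_smul' (((c : ℕ) : Module.End (ZMod 11) (Fn11 q q')))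
  rw [nsmul_eq_mul] at h
  rw [Nat.cast_mul]
  exact h

private theorem frob {q q' : ℕ} (T : Module.End (ZMod 11) (Fn11 q q')) : (1 + T) ^ 11 = 1 + T ^ 11 := by
  have hc : Commute T 1 := Commute.one_right T
  rw [add_comm 1 T, hc.add_pow]
  simp only [Finset.sum_range_succ, Finset.sum_range_zero, one_pow, mul_one, zero_add, pow_zero]
  have c1 : Nat.choose 11 1 = 11 * 1 := by decide
  have c2 : Nat.choose 11 2 = 11 * 5 := by decide
  have c3 : Nat.choose 11 3 = 11 * 15 := by decide
  have c4 : Nat.choose 11 4 = 11 * 30 := by decide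
  have c5 : Nat.choose 11 5 = 11 * 42 := by decide
  have c6 : Nat.choose 11 6 = 11 * 42 := by decide
  have c7 : Nat.choose 11 7 = 11 * 30 := by decide
  have c8 : Nat.choose 11 8 = 11 * 15 := by decide
  have c9 : Nat.choose 11 9 = 11 * 5 := by decide
  have c10 : Nat.choose 11 10 = 11 * 1 := by decide
  rw [c1, c2, c3, c4, c5, c6, c7, c8, c9, c10, Nat.choose_self, Nat.choose_zero_right]
  have h11 : ((11 : ℕ) : Module.End (ZMod 11) (Fn11 q q')) = 0 := seven_zero' 1
  simp only [seven_zero', Nat.cast_one, mul_zero, mul_one, add_zero, h11]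

private theorem shift {q q' : ℕ} (n : ℕ) : ∀ (F : Fn11 q q') (x : ZMod q) (y : ZMod q'),
    ((1 + dY) ^ n : Module.End (ZMod 11) (Fn11 q q')) F x y = F x (y + n) := by
  induction n with
  | zero =>
    intro F x y
    rw [pow_zero, Nat.cast_zero, add_zero]
    rfl
  | succ n ih =>
    intro F x y
    rw [pow_succ, Module.End.mul_apply, ih]
    change F x (y + n) + (F x (y + n + 1) - F x (y + n)) = F x (y + ((n + 1 : ℕ) : ZMod q'))
    have h1 : (y + n + 1 : ZMod q') = y + ((n + 1 : ℕ) : ZMod q') := by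
      push_cast
      ring
    rw [h1]
    ring

private theorem newton {q q' : ℕ} (T : Module.End (ZMod 11) (Fn11 q q')) (u M : ℕ) (hu : u < M)
    (F : Fn11 q q') (x : ZMod q) (y : ZMod q') :
    ((1 + T) ^ u) F x y = ∑ m ∈ Finset.range M, (u.choose m : ZMod 11) * (T ^ m) F x y := by
  have hc : Commute T 1 := Commute.one_right T
  rw [add_comm, hc.add_pow]
  have h1 : ∀ m ∈ Finset.range (u + 1), ((T ^ m * 1 ^ (u - m) * (u.choose m :
      Module.End (ZMod 11) (Fn11 q q'))) F x y) = (u.choose m : ZMod 11) * (T ^ m) F x y := by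
    intro m _
    rw [one_pow, mul_one, Module.End.mul_apply, Module.End.natCast_apply, map_nsmul,
      Pi.smul_apply, Pi.smul_apply, nsmul_eq_mul]
  rw [LinearMap.sum_apply, Finset.sum_apply, Finset.sum_apply, Finset.sum_congr rfl h1]
  apply Finset.sum_subset
  · intro m hm
    rw [Finset.mem_range] at hm ⊢
    omega
  · intro m _ hm
    rw [Finset.mem_range] at hm
    rw [Nat.choose_eq_zero_of_lt (by omega), Nat.cast_zero, zero_mul]

/-! ### binomial coefficients -/

private theorem choose_add (u i m : ℕ) (hm : m < 11 ^ i) :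
    ((u + 11 ^ i).choose m : ZMod 11) = (u.choose m : ZMod 11) := by
  rw [Nat.add_choose_eq]
  push_cast
  rw [Finset.sum_eq_single (m, 0)]
  · simp
  · rintro ⟨a, b⟩ hab hne
    have hab' : a + b = m := by simpa using hab
    have hb : b ≠ 0 := by
      intro hb0
      apply hne
      have : a = m := by omega
      rw [this, hb0]
    have h1 : 11 ∣ (11 ^ i).choose b :=
      Nat.Prime.dvd_choose_pow (by norm_num : Nat.Prime 11) hb (by omega)
    have h2 : (((11 ^ i).choose b : ℕ) : ZMod 11) = 0 := (ZMod.natCast_eq_zero_iff _ _).2 h1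
    change ((u.choose a : ℕ) : ZMod 11) * (((11 ^ i).choose b : ℕ) : ZMod 11) = 0
    rw [h2, mul_zero]
  · intro h
    exact absurd (by simp) h

private theorem choose_add_mul (u i m : ℕ) (hm : m < 11 ^ i) (n : ℕ) :
    ((u + 11 ^ i * n).choose m : ZMod 11) = (u.choose m : ZMod 11) := by
  induction n with
  | zero => simp
  | succ n ih =>
    rw [mul_add, mul_one, ← add_assoc, choose_add _ _ _ hm, ih]

private theorem choose_mod {u v i m : ℕ} (hm : m < 11 ^ i) (h : u ≡ v [MOD 11 ^ i]) :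
    (u.choose m : ZMod 11) = (v.choose m : ZMod 11) := by
  have h1 := Nat.mod_add_div u (11 ^ i)
  have h2 := Nat.mod_add_div v (11 ^ i)
  have h3 : u % 11 ^ i = v % 11 ^ i := h
  rw [← h1, ← h2, choose_add_mul _ _ _ hm, choose_add_mul _ _ _ hm, h3]

/-! ### the coefficient functions -/

private theorem seven_ne : (11 : ℕ) ≠ 0 := by norm_num

/-- binomial coefficient of a linear function -/
private def lf (q s w c m : ℕ) : Fn11 q (11 ^ s) := fun _ y => (((w * y.val + c).choose m : ℕ) : ZMod 11)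

/-- binomial coefficient of a quadratic function -/
private def qf (q s w m : ℕ) : Fn11 q (11 ^ s) := fun _ y => (((w * y.val ^ 2).choose m : ℕ) : ZMod 11)

private theorem val_add_one {s : ℕ} (y : ZMod (11 ^ s)) : (y + 1).val ≡ y.val + 1 [MOD 11 ^ s] := by
  have : NeZero (11 ^ s) := ⟨pow_ne_zero _ seven_ne⟩
  rw [← ZMod.natCast_eq_natCast_iff]
  push_cast
  rw [ZMod.natCast_zmod_val, ZMod.natCast_zmod_val]

private theorem dY_lf (q s w c m : ℕ) (hm : m < 11 ^ s) :
    (dY : Module.End (ZMod 11) (Fn11 q (11 ^ s))) (lf q s w c m) =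
      ∑ b ∈ Finset.range m, ((w.choose (m - b) : ℕ) : ZMod 11) • lf q s w c b := by
  funext x y
  change lf q s w c m x (y + 1) - lf q s w c m x y = _
  rw [Finset.sum_apply, Finset.sum_apply]
  have h1 : lf q s w c m x (y + 1) = (((w * y.val + c + w).choose m : ℕ) : ZMod 11) := by
    unfold lf
    refine choose_mod hm ?_
    have h := ((val_add_one y).mul_left w).add_right c
    have h' : w * (y.val + 1) + c = w * y.val + c + w := by ring
    rwa [h'] at h
  rw [h1, Nat.add_choose_eq, Finset.Nat.sum_antidiagonal_eq_sum_range_succ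
    (fun a b => (w * y.val + c).choose a * w.choose b) m, Finset.sum_range_succ, Nat.sub_self,
    Nat.choose_zero_right, mul_one]
  push_cast
  unfold lf
  rw [add_sub_cancel_right]
  refine Finset.sum_congr rfl fun b _ => ?_
  rw [Pi.smul_apply, Pi.smul_apply, smul_eq_mul, mul_comm]

private theorem dY_qf (q s w m : ℕ) (hm : m < 11 ^ s) :
    (dY : Module.End (ZMod 11) (Fn11 q (11 ^ s))) (qf q s w m) =
      ∑ b ∈ Finset.range m, (fun (x : ZMod q) (y : ZMod (11 ^ s)) =>
        qf q s w b x y * lf q s (2 * w) w (m - b) x y) := by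
  funext x y
  change qf q s w m x (y + 1) - qf q s w m x y = _
  rw [Finset.sum_apply, Finset.sum_apply]
  have h1 : qf q s w m x (y + 1) =
      (((w * y.val ^ 2 + (2 * w * y.val + w)).choose m : ℕ) : ZMod 11) := by
    unfold qf
    refine choose_mod hm ?_
    have h := ((val_add_one y).pow 2).mul_left w
    have h' : w * (y.val + 1) ^ 2 = w * y.val ^ 2 + (2 * w * y.val + w) := by ring
    rwa [h'] at h
  rw [h1, Nat.add_choose_eq, Finset.Nat.sum_antidiagonal_eq_sum_range_succ
    (fun a b => (w * y.val ^ 2).choose a * (2 * w * y.val + w).choose b) m,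
    Finset.sum_range_succ, Nat.sub_self, Nat.choose_zero_right, mul_one]
  push_cast
  unfold qf lf
  rw [add_sub_cancel_right]

private theorem mem_of_dY {q q' : ℕ} {m : ℤ} {f : Fn11 q q'} (h0 : 0 ≤ m)
    (hx : (dX : Module.End (ZMod 11) (Fn11 q q')) f = 0)
    (hy : (dY : Module.End (ZMod 11) (Fn11 q q')) f ∈ (Wd11 (m - 1) : Submodule (ZMod 11) (Fn11 q q'))) :
    f ∈ (Wd11 m : Submodule (ZMod 11) (Fn11 q q')) := by
  intro i j hij
  rcases Nat.eq_zero_or_pos j with hj | hj
  · obtain ⟨i', rfl⟩ : ∃ i', i = i' + 1 := ⟨i - 1, by omega⟩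
    rw [hj, pow_zero, mul_one, pow_succ, Module.End.mul_apply, hx, map_zero]
  · obtain ⟨j', rfl⟩ : ∃ j', j = j' + 1 := ⟨j - 1, by omega⟩
    rw [pow_succ dY, ← mul_assoc, Module.End.mul_apply]
    exact hy i j' (by push_cast at hij ⊢; linarith)

private theorem lf_mem (h0 : S11Low0) (r s w c : ℕ) : ∀ m : ℕ, m < 11 ^ s →
    lf (11 ^ r) s w c m ∈ (Wd11 (m : ℤ) : Submodule (ZMod 11) (Fn11 (11 ^ r) (11 ^ s))) := by
  obtain ⟨-, -, -, -, hmono, -⟩ := h0 r s
  intro m
  induction m using Nat.strong_induction_on with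
  | _ m ih =>
    intro hm
    refine mem_of_dY (Nat.cast_nonneg m) ?_ ?_
    · funext x y
      exact sub_self _
    · rw [dY_lf _ _ _ _ _ hm]
      refine Submodule.sum_mem _ fun b hb => Submodule.smul_mem _ _ ?_
      have hb' := Finset.mem_range.1 hb
      exact hmono _ _ (by omega) (ih b hb' (by omega))

private theorem qf_mem (h0 : S11Low0) (hP : S11Prd) (r s w : ℕ) : ∀ m : ℕ, m < 11 ^ s →
    qf (11 ^ r) s w m ∈ (Wd11 (2 * (m : ℤ)) : Submodule (ZMod 11) (Fn11 (11 ^ r) (11 ^ s))) := by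
  obtain ⟨-, -, -, -, hmono, -⟩ := h0 r s
  intro m
  induction m using Nat.strong_induction_on with
  | _ m ih =>
    intro hm
    refine mem_of_dY (by positivity) ?_ ?_
    · funext x y
      exact sub_self _
    · rw [dY_qf _ _ _ _ hm]
      refine Submodule.sum_mem _ fun b hb => ?_
      have hb' := Finset.mem_range.1 hb
      exact hmono _ _ (by omega) (hP r s _ _ _ _ (ih b hb' (by omega))
        (lf_mem h0 r s (2 * w) w (m - b) (by omega)))

private theorem dY_pow_mem (h0 : S11Low0) {r s : ℕ} {d : ℤ} (m : ℕ) : ∀ {F : Fn11 (11 ^ r) (11 ^ s)},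
    F ∈ (Wd11 d : Submodule (ZMod 11) (Fn11 (11 ^ r) (11 ^ s))) →
    ((dY ^ m : Module.End (ZMod 11) (Fn11 (11 ^ r) (11 ^ s))) F) ∈
      (Wd11 (d - m) : Submodule (ZMod 11) (Fn11 (11 ^ r) (11 ^ s))) := by
  obtain ⟨-, -, -, -, -, -, -, hdy, -⟩ := h0 r s
  induction m with
  | zero =>
    intro F hF
    rw [pow_zero, Nat.cast_zero, sub_zero]
    exact hF
  | succ m ih =>
    intro F hF
    rw [pow_succ', Module.End.mul_apply]
    have h1 := hdy _ _ (ih hF)
    have h2 : d - m - 1 = d - ((m + 1 : ℕ) : ℤ) := by push_cast; ring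
    rwa [h2] at h1

/-- the binomial coefficients of `w y^e` -/
private def cf (q s w e m : ℕ) : Fn11 q (11 ^ s) :=
  fun _ y => (((w * y.val ^ e).choose m : ℕ) : ZMod 11)

private theorem cf_mem (h0 : S11Low0) (hP : S11Prd) (r s w e m : ℕ) (he : e = 1 ∨ e = 2)
    (hm : m < 11 ^ s) : cf (11 ^ r) s w e m ∈
      (Wd11 ((e : ℤ) * m) : Submodule (ZMod 11) (Fn11 (11 ^ r) (11 ^ s))) := by
  rcases he with rfl | rfl
  · have h := lf_mem h0 r s w 0 m hm
    have h1 : cf (11 ^ r) s w 1 m = lf (11 ^ r) s w 0 m := by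
      funext x y
      unfold cf lf
      rw [pow_one, add_zero]
    rw [h1, Nat.cast_one, one_mul]
    exact h
  · exact qf_mem h0 hP r s w m hm

/-- the part in the variable `y` -/
private theorem part_y (h0 : S11Low0) (hP : S11Prd) (r s e : ℕ) (he : e = 1 ∨ e = 2)
    (u : ZMod (11 ^ s)) (d : ℤ)
    (F : Fn11 (11 ^ r) (11 ^ s)) (hF : F ∈ (Wd11 d : Submodule (ZMod 11) (Fn11 (11 ^ r) (11 ^ s)))) :
    (fun x y => F x (y + 11 * u * y ^ e) - F x y) ∈
      (Wd11 (d - (11 - e)) : Submodule (ZMod 11) (Fn11 (11 ^ r) (11 ^ s))) := by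
  have : NeZero (11 ^ s) := ⟨pow_ne_zero _ seven_ne⟩
  obtain ⟨-, -, -, -, hmono, -, -, -, -, -, hnil, -⟩ := h0 r s
  have h5 : 0 < 11 ^ s := pow_pos (show 0 < 11 by norm_num) s
  obtain ⟨n, hn⟩ : ∃ n, 11 ^ s * (11 ^ s) ^ e = n + 1 :=
    ⟨11 ^ s * (11 ^ s) ^ e - 1, by have := Nat.mul_pos h5 (pow_pos h5 e); omega⟩
  -- the expansion
  have hexp : (fun x y => F x (y + 11 * u * y ^ e) - F x y) =
      ∑ m ∈ Finset.range n, (fun (x : ZMod (11 ^ r)) (y : ZMod (11 ^ s)) =>
        cf (11 ^ r) s u.val e (m + 1) x y *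
        ((dY ^ (11 * (m + 1)) : Module.End (ZMod 11) (Fn11 (11 ^ r) (11 ^ s))) F) x y) := by
    funext x y
    rw [Finset.sum_apply, Finset.sum_apply]
    have h1 : (y + 11 * u * y ^ e : ZMod (11 ^ s)) =
        y + ((11 * (u.val * y.val ^ e) : ℕ) : ZMod (11 ^ s)) := by
      push_cast
      rw [ZMod.natCast_zmod_val, ZMod.natCast_zmod_val]
      ring
    have h2 : u.val * y.val ^ e < n + 1 := by
      rw [← hn]
      calc u.val * y.val ^ e ≤ u.val * (11 ^ s) ^ e :=
            Nat.mul_le_mul_left _ (Nat.pow_le_pow_left (ZMod.val_lt y).le e)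
        _ < 11 ^ s * (11 ^ s) ^ e := Nat.mul_lt_mul_of_pos_right (ZMod.val_lt u) (pow_pos h5 e)
    rw [h1, ← shift (11 * (u.val * y.val ^ e)) F x y, pow_mul, frob,
      newton _ _ (n + 1) h2,
      Finset.sum_range_succ', pow_zero, Nat.choose_zero_right, Nat.cast_one, one_mul]
    change _ + F x y - F x y = _
    rw [add_sub_cancel_right]
    refine Finset.sum_congr rfl fun m _ => ?_
    rw [← pow_mul]
    rfl
  rw [hexp]
  refine Submodule.sum_mem _ fun m _ => ?_
  rcases lt_or_ge (m + 1) (11 ^ s) with hm | hm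
  · refine hmono _ _ ?_ (hP r s _ _ _ _ (cf_mem h0 hP r s u.val e (m + 1) he hm)
      (dY_pow_mem h0 (11 * (m + 1)) hF))
    push_cast
    have : (0 : ℤ) ≤ m := Nat.cast_nonneg m
    rcases he with rfl | rfl <;> push_cast <;> linarith
  · have h2 : (dY ^ (11 * (m + 1)) : Module.End (ZMod 11) (Fn11 (11 ^ r) (11 ^ s))) = 0 := by
      have h3 : 11 * (m + 1) = 11 ^ s + (11 * (m + 1) - 11 ^ s) := by omega
      rw [h3, pow_add, hnil, zero_mul]
    have h4 : (fun (x : ZMod (11 ^ r)) (y : ZMod (11 ^ s)) => cf (11 ^ r) s u.val e (m + 1) x y *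
        ((dY ^ (11 * (m + 1)) : Module.End (ZMod 11) (Fn11 (11 ^ r) (11 ^ s))) F) x y) = 0 := by
      funext x y
      rw [h2]
      exact mul_zero _
    rw [h4]
    exact Submodule.zero_mem _

theorem hSubB (hl : S11Low0) (hp : S11Prd) : S11SubB := by
  intro r s e he
  constructor
  · intro u d F hF
    exact part_y hl hp r s e he u d F hF
  · intro u d F hF
    exact sw_mem hl (part_y hl hp s r e he u d (sw F) (sw_mem hl hF))

end Pool.Agent.Helper84.P11
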