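import Pool.Agent.Helper84.P11.StD1

/-!
# Project W7: the composition law of right translations of the plane
-/

set_option autoImplicit false

namespace Pool.Agent.Helper84.P11

open Pool.Agent.Helper84.P11

private lemma prime7 : Prime (11 : ℤ) := Int.prime_iff_natAbs_prime.2 (by norm_num)

private lemma nil7 (r : ℕ) : IsNilpotent (11 : ZMod (11 ^ r)) := by
  refine ⟨r, ?_⟩
  have h := ZMod.natCast_self (11 ^ r)
  rw [Nat.cast_pow, Nat.cast_ofNat] at h
  exact h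

private lemma unitInt (r : ℕ) (a : ℤ) (ha : ¬ 11 ∣ a) : IsUnit (a : ZMod (11 ^ r)) := by
  have h1 : IsCoprime a (11 : ℤ) := by
    have hp : Prime (11 : ℤ) := prime7
    exact ((Prime.coprime_iff_not_dvd hp).2 ha).symm
  have h2 : IsCoprime a ((11 : ℤ) ^ r) := h1.pow_right
  obtain ⟨u, v, huv⟩ := h2
  have h3 : (u : ZMod (11 ^ r)) * (a : ZMod (11 ^ r)) = 1 := by
    have h4 : ((u * a + v * (11 : ℤ) ^ r : ℤ) : ZMod (11 ^ r)) = ((1 : ℤ) : ZMod (11 ^ r)) := by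
      rw [huv]
    have h7 : (((11 : ℤ) ^ r : ℤ) : ZMod (11 ^ r)) = 0 := by
      have h := ZMod.natCast_self (11 ^ r)
      push_cast at h ⊢
      exact h
    push_cast at h4 h7
    rw [h7, mul_zero, add_zero] at h4
    exact h4
  exact IsUnit.of_mul_eq_one (u : ZMod (11 ^ r)) (by rw [mul_comm]; exact h3)

private lemma unitDen (r : ℕ) (a c : ℤ) (x : ZMod (11 ^ r)) (ha : ¬ 11 ∣ a) :
    IsUnit ((a : ZMod (11 ^ r)) + 11 * c * x) := by
  have hn : IsNilpotent ((11 : ZMod (11 ^ r)) * c * x) := by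
    have h1 : (11 : ZMod (11 ^ r)) * c * x = 11 * (c * x) := by ring
    rw [h1]
    exact Commute.isNilpotent_mul_right (Commute.all _ _) (nil7 r)
  exact IsNilpotent.isUnit_add_left_of_commute hn (unitInt r a ha) (Commute.all _ _)

private lemma quo {n : ℕ} (N W u : ZMod n) (hu : IsUnit u) (hW : IsUnit W) :
    (N * u⁻¹) * (W * u⁻¹)⁻¹ = N * W⁻¹ := by
  have hui : u * u⁻¹ = 1 := ZMod.mul_inv_of_unit u hu
  have hWi : W * W⁻¹ = 1 := ZMod.mul_inv_of_unit W hW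
  have huu : IsUnit (u⁻¹) := IsUnit.of_mul_eq_one u (by rw [mul_comm]; exact hui)
  have hv : IsUnit (W * u⁻¹) := hW.mul huu
  have hvi : (W * u⁻¹) * (W * u⁻¹)⁻¹ = 1 := ZMod.mul_inv_of_unit _ hv
  calc (N * u⁻¹) * (W * u⁻¹)⁻¹
      = (N * u⁻¹) * (W * W⁻¹) * (W * u⁻¹)⁻¹ := by rw [hWi, mul_one]
    _ = N * W⁻¹ * ((W * u⁻¹) * (W * u⁻¹)⁻¹) := by ring
    _ = N * W⁻¹ := by rw [hvi, mul_one]

private lemma step {n : ℕ} (P Q A B A2 B2 X u : ZMod n) (hu : IsUnit u) (hX : X = P * u⁻¹)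
    (hA : B * u + A * P = A2)
    (hW : IsUnit (Q * u + 11 * B2 * P)) :
    (B + A * X) * (Q + 11 * B2 * X)⁻¹ = A2 * (Q * u + 11 * B2 * P)⁻¹ := by
  have hui : u * u⁻¹ = 1 := ZMod.mul_inv_of_unit u hu
  have h1 : B + A * X = (B * u + A * P) * u⁻¹ := by
    rw [hX]
    calc B + A * (P * u⁻¹) = B * 1 + A * (P * u⁻¹) := by ring
      _ = B * (u * u⁻¹) + A * (P * u⁻¹) := by rw [hui]
      _ = (B * u + A * P) * u⁻¹ := by ring
  have h2 : Q + 11 * B2 * X = (Q * u + 11 * B2 * P) * u⁻¹ := by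
    rw [hX]
    calc Q + 11 * B2 * (P * u⁻¹) = Q * 1 + 11 * B2 * (P * u⁻¹) := by ring
      _ = Q * (u * u⁻¹) + 11 * B2 * (P * u⁻¹) := by rw [hui]
      _ = (Q * u + 11 * B2 * P) * u⁻¹ := by ring
  rw [h1, h2, quo _ _ _ hu hW, hA]

theorem hTrm : S11Trm := by
  intro R r s F
  refine ⟨?_, ?_, ?_⟩
  · intro a b c d a' b' c' d' ha hd ha' hd'
    have nd : ∀ p q t : ℤ, ¬ 11 ∣ p → ¬ 11 ∣ q → ¬ 11 ∣ (p * q + 11 * t) := by
      intro p q t hp hq h
      have h1 : (11 : ℤ) ∣ p * q := by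
        have h2 : (11 : ℤ) ∣ 11 * t := ⟨t, rfl⟩
        exact (Int.dvd_add_left h2).1 h
      rcases prime7.dvd_or_dvd h1 with h3 | h3
      · exact hp h3
      · exact hq h3
    have na : ¬ 11 ∣ (a * a' + 11 * b * c') := by
      have := nd a a' (b * c') ha ha'
      rwa [show a * a' + 11 * (b * c') = a * a' + 11 * b * c' by ring] at this
    have ndd : ¬ 11 ∣ (11 * c * b' + d * d') := by
      have := nd d d' (c * b') hd hd'
      rwa [show d * d' + 11 * (c * b') = 11 * c * b' + d * d' by ring] at this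
    funext x y
    unfold tr11
    congr 1
    · have hu := unitDen r a c x ha
      have hW := unitDen r (a * a' + 11 * b * c') (c * a' + d * c') x na
      have e1 : (a' : ZMod (11 ^ r)) * ((a : ZMod (11 ^ r)) + 11 * c * x) + 11 * c' * ((b : ZMod (11 ^ r)) + d * x)
          = ((a * a' + 11 * b * c' : ℤ) : ZMod (11 ^ r)) + 11 * ((c * a' + d * c' : ℤ) : ZMod (11 ^ r)) * x := by
        push_cast; ring
      have e2 : (b' : ZMod (11 ^ r)) * ((a : ZMod (11 ^ r)) + 11 * c * x) + d' * ((b : ZMod (11 ^ r)) + d * x)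
          = ((a * b' + b * d' : ℤ) : ZMod (11 ^ r)) + ((11 * c * b' + d * d' : ℤ) : ZMod (11 ^ r)) * x := by
        push_cast; ring
      rw [← e1] at hW
      rw [← e1]
      exact step (n := 11 ^ r) ((b : ZMod (11 ^ r)) + d * x) (a' : ZMod (11 ^ r)) (d' : ZMod (11 ^ r)) (b' : ZMod (11 ^ r)) _
        (c' : ZMod (11 ^ r)) _ ((a : ZMod (11 ^ r)) + 11 * c * x) hu rfl e2 hW
    · have hu := unitDen s d b y hd
      have hW := unitDen s (11 * c * b' + d * d') (a * b' + b * d') y ndd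
      have e1 : (d' : ZMod (11 ^ s)) * ((d : ZMod (11 ^ s)) + 11 * b * y) + 11 * b' * ((c : ZMod (11 ^ s)) + a * y)
          = ((11 * c * b' + d * d' : ℤ) : ZMod (11 ^ s)) + 11 * ((a * b' + b * d' : ℤ) : ZMod (11 ^ s)) * y := by
        push_cast; ring
      have e2 : (c' : ZMod (11 ^ s)) * ((d : ZMod (11 ^ s)) + 11 * b * y) + a' * ((c : ZMod (11 ^ s)) + a * y)
          = ((c * a' + d * c' : ℤ) : ZMod (11 ^ s)) + ((a * a' + 11 * b * c' : ℤ) : ZMod (11 ^ s)) * y := by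
        push_cast; ring
      rw [← e1] at hW
      rw [← e1]
      exact step (n := 11 ^ s) ((c : ZMod (11 ^ s)) + a * y) (d' : ZMod (11 ^ s)) (a' : ZMod (11 ^ s)) (c' : ZMod (11 ^ s)) _
        (b' : ZMod (11 ^ s)) _ ((d : ZMod (11 ^ s)) + 11 * b * y) hu rfl e2 hW
  · funext x y
    unfold tr11
    have i1 : ∀ n : ℕ, (1 : ZMod n)⁻¹ = 1 := by
      intro n
      have h := ZMod.mul_inv_of_unit (1 : ZMod n) isUnit_one
      rwa [one_mul] at h
    simp [i1]
  · intro k a b c d hk ha hd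
    funext x y
    unfold tr11
    have key : ∀ (n : ℕ) (N W u : ZMod n), IsUnit u → IsUnit W → (u * N) * (u * W)⁻¹ = N * W⁻¹ := by
      intro n N W u hu hW
      have hWi : W * W⁻¹ = 1 := ZMod.mul_inv_of_unit W hW
      have hvi : (u * W) * (u * W)⁻¹ = 1 := ZMod.mul_inv_of_unit _ (hu.mul hW)
      calc (u * N) * (u * W)⁻¹ = (u * N) * (W * W⁻¹) * (u * W)⁻¹ := by rw [hWi, mul_one]
        _ = N * W⁻¹ * ((u * W) * (u * W)⁻¹) := by ring
        _ = N * W⁻¹ := by rw [hvi, mul_one]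
    congr 1
    · have e1 : ((k * b : ℤ) : ZMod (11 ^ r)) + ((k * d : ℤ) : ZMod (11 ^ r)) * x
          = (k : ZMod (11 ^ r)) * ((b : ZMod (11 ^ r)) + d * x) := by push_cast; ring
      have e2 : ((k * a : ℤ) : ZMod (11 ^ r)) + 11 * ((k * c : ℤ) : ZMod (11 ^ r)) * x
          = (k : ZMod (11 ^ r)) * ((a : ZMod (11 ^ r)) + 11 * c * x) := by push_cast; ring
      rw [e1, e2]
      exact key _ _ _ _ (unitInt r k hk) (unitDen r a c x ha)
    · have e1 : ((k * c : ℤ) : ZMod (11 ^ s)) + ((k * a : ℤ) : ZMod (11 ^ s)) * y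
          = (k : ZMod (11 ^ s)) * ((c : ZMod (11 ^ s)) + a * y) := by push_cast; ring
      have e2 : ((k * d : ℤ) : ZMod (11 ^ s)) + 11 * ((k * b : ℤ) : ZMod (11 ^ s)) * y
          = (k : ZMod (11 ^ s)) * ((d : ZMod (11 ^ s)) + 11 * b * y) := by push_cast; ring
      rw [e1, e2]
      exact key _ _ _ _ (unitInt s k hk) (unitDen s d b y hd)

end Pool.Agent.Helper84.P11
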