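import Pool.Agent.Helper10.CV.M_N1
import Pool.Agent.Helper69.W5.M_PHk
import Pool.Agent.Helper84.P11.M_Bb
import Pool.Agent.Helper84.P11.M_Edg
import Pool.Agent.Helper84.P11.M_Exp
import Pool.Agent.Helper84.P11.M_HkB
import Pool.Agent.Helper84.P11.M_HkF
import Pool.Agent.Helper84.P11.M_Low0
import Pool.Agent.Helper84.P11.M_Lw1
import Pool.Agent.Helper84.P11.M_Nf
import Pool.Agent.Helper84.P11.M_Nfa
import Pool.Agent.Helper84.P11.M_Opm
import Pool.Agent.Helper84.P11.M_PlA
import Pool.Agent.Helper84.P11.M_PlU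
import Pool.Agent.Helper84.P11.M_Prd
import Pool.Agent.Helper84.P11.M_SubA
import Pool.Agent.Helper84.P11.M_SubB
import Pool.Agent.Helper84.P11.M_Tre
import Pool.Agent.Helper84.P11.M_Trm
import Pool.Agent.Helper84.P11.M_Unb
import Pool.Agent.Helper84.P11.M_Val

/-!
# Project P11: the operator calculus modulo 11, statements of `StD1` without hypotheses
-/

set_option autoImplicit false

namespace Pool.Agent.Helper84.P11

theorem plA : S11PlA := hPlA

theorem plU : S11PlU := hPlU

theorem edg : S11Edg := hEdg plA plU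

theorem phk : Pool.Agent.Helper14.W5.SPHk := Pool.Agent.Helper69.W5.hPHk Pool.Agent.Helper10.CV.hN1

theorem trm : S11Trm := hTrm

theorem tre : S11Tre := hTre edg plA

theorem hkB : S11HkB := hHkB phk

theorem hkF : S11HkF := hHkF hkB edg plA

theorem low0 : S11Low0 := hLow0

theorem prd : S11Prd := hPrd

theorem subA : S11SubA := hSubA low0 prd

theorem subB : S11SubB := hSubB low0 prd

theorem nfa : S11Nfa := hNfa low0 subA subB

theorem nf : S11Nf := hNf trm low0 nfa subA

theorem exp11 : S11Exp := hExp low0 nfa nf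

theorem lw1 : S11Lw1 := hLw1 low0 nfa nf

theorem val11 : S11Val := hVal low0

theorem opm : S11Opm := hOpm trm

theorem bb : S11Bb := hBb

theorem unb : S11Unb := hUnb

end Pool.Agent.Helper84.P11
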