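import Pool.Agent.Helper84.P11.P_CeV_21_1
import Pool.Agent.Helper84.P11.P_CeV_21_2

/-!
# Project P11, module CEV, entry (2, 1)
-/

set_option autoImplicit false
set_option maxRecDepth 1000000

namespace Pool.Agent.Helper84.P11.CeV21

open Pool.Agent.Helper84.P11 Pool.Agent.Helper4.P11

private theorem loop_app (L L' : List Tm) (acc : ℕ) : loop (L ++ L') acc = loop L' (loop L acc) := by
  induction L generalizing acc with
  | nil => rfl
  | cons t L ih =>
    have h : loop (t :: L) acc = sq (acc + (X3380 + val t)) (loop L) := rfl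
    have h' : loop (t :: L ++ L') acc = sq (acc + (X3380 + val t)) (loop (L ++ L')) := rfl
    rw [h, h', sq_eq, sq_eq, ih]

private theorem cL_app (W W' : List (ℤ × List ℕ)) (i f : Fin 3) :
    cL (W ++ W') i f = cL W i f ++ cL W' i f := by
  unfold cL
  exact List.flatMap_append

/-- The wanted coefficients. -/
private noncomputable def want (w : Fin 10) (a k b : ℕ) : ℤ :=
  if w.val = 0 then (if (a = 1 ∧ k = 0 ∧ b = 11) ∨ (a = 11 ∧ k = 0 ∧ b = 1) then 0 else 0) else 0

private theorem fin0 : chk (loop (sclL (-1) (mulL (mVM 2) (relM 1))) N2) want = true := by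
  decide +kernel

private theorem fast : fastC (BVM 2 1) want = true := by
  unfold fastC BVM
  rw [sq_eq, loop_app, VW_eq]
  simp only [cL_app, loop_app]
  have e0 : (0 : ℕ) = N0 := rfl
  rw [e0]
  rw [Nat.eq_of_beq_eq_true s1]
  rw [Nat.eq_of_beq_eq_true s2]
  exact fin0

end Pool.Agent.Helper84.P11.CeV21

namespace Pool.Agent.Helper84.P11

open Pool.Agent.Helper4.P11

/-- The entry (2, 1) of CEV. -/
theorem ceV_21 : ∀ w : Fin 10, ∀ t ∈ M13, (11 : ℤ) ∣ cS (BVM 2 1) w t.1 t.2.1 t.2.2 -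
    (if (2 : Fin 3) = 1 ∧ w = 0 then (if t = (1, 0, 11) ∨ t = (11, 0, 1) then 1 else 0) else 0) := by
  intro w t ht
  have h := cS_fast _ _ CeV21.fast w t ht
  obtain ⟨a, k, b⟩ := t
  have e : CeV21.want w a k b = (if (2 : Fin 3) = 1 ∧ w = 0 then
      (if ((a, k, b) : ℕ × ℕ × ℕ) = (1, 0, 11) ∨ ((a, k, b) : ℕ × ℕ × ℕ) = (11, 0, 1) then 1 else 0) else 0) := by
    unfold CeV21.want
    have hw : (w.val = 0) = (w = 0) := propext ⟨fun h => Fin.ext h, fun h => by rw [h]; rfl⟩
    simp [hw]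
  rw [← e]
  exact h

end Pool.Agent.Helper84.P11
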