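import Pool.Agent.Helper84.P11.D_CeV_21

/-!
# Project P11, module CEV, entry (2, 1), part 1
-/

set_option autoImplicit false
set_option maxRecDepth 1000000

namespace Pool.Agent.Helper84.P11.CeV21

open Pool.Agent.Helper84.P11 Pool.Agent.Helper4.P11

theorem s1 : Nat.beq (loop (cL W1 2 1) N0) N1 = true := by
  decide +kernel

end Pool.Agent.Helper84.P11.CeV21
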